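import Pool.Agent.U880.TC.Det

set_option autoImplicit false

/-! From the number of prime ideals of degree one to the number of primes. -/

namespace Pool.Agent.U880.TC

open Finset Filter NumberField Pool.Agent.H38R2.CG
open scoped Classical

theorem abs_chi2_le (D : ℤ) : |chi2 D| ≤ 1 := by
  unfold chi2
  split_ifs <;> simp

theorem chi_le_one (D : ℤ) (n : ℕ) : chi D n ≤ 1 := by
  unfold chi
  refine (le_abs_self _).trans ?_
  rw [abs_mul, abs_pow]
  have h1 : |chi2 D| ^ (padicValNat 2 n) ≤ 1 := pow_le_one₀ (abs_nonneg _) (abs_chi2_le D)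
  have h2 : |jacobiSym D (n / 2 ^ padicValNat 2 n)| ≤ 1 := by
    rcases jacobiSym.trichotomy D (n / 2 ^ padicValNat 2 n) with h | h | h <;> rw [h] <;> simp
  calc |chi2 D| ^ (padicValNat 2 n) * |jacobiSym D (n / 2 ^ padicValNat 2 n)|
      ≤ 1 * 1 := mul_le_mul h1 h2 (abs_nonneg _) zero_le_one
    _ = 1 := one_mul 1

theorem two_ideals (hN2 : P_N2) (K : Type) [Field K] [NumberField K] (D : ℕ) (hD : IsFund D)
    (h2 : Module.finrank ℚ K = 2) (hK : NumberField.discr K = (D : ℤ)) (p : ℕ) (hp : p.Prime) :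
    Nat.card {I : Ideal (𝓞 K) // Ideal.absNorm I = p} ≤ 2 := by
  have h := hN2 K D hD h2 hK p hp.one_lt.le
  rw [Nat.Prime.sum_divisors hp] at h
  have h3 := chi_le_one D p
  have h4 := chi_le_one D 1
  have h5 : (Nat.card {I : Ideal (𝓞 K) // Ideal.absNorm I = p} : ℤ) ≤ 2 := by linarith
  exact_mod_cast h5

/-- The prime ideals of degree one and norm at most `B`. -/
def Tiny (K : Type) [Field K] [NumberField K] (B : ℝ) : Set (nonZeroDivisors (Ideal (𝓞 K))) :=
  {P | (P : Ideal (𝓞 K)).IsPrime ∧ (Ideal.absNorm (P : Ideal (𝓞 K))).Prime ∧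
    ((Ideal.absNorm (P : Ideal (𝓞 K)) : ℕ) : ℝ) ≤ B}

/-- The classes which are products of `k` classes of ideals of `S`. -/
def Prods {K : Type} [Field K] [NumberField K] (S : Set (nonZeroDivisors (Ideal (𝓞 K)))) (k : ℕ) :
    Set (ClassGroup (𝓞 K)) :=
  {C | ∃ L : Multiset (nonZeroDivisors (Ideal (𝓞 K))), (∀ P ∈ L, P ∈ S) ∧ L.card = k ∧
    (L.map fun P => ClassGroup.mk0 P).prod = C}

theorem tiny_finite (K : Type) [Field K] [NumberField K] (B : ℝ) : (Tiny K B).Finite := by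
  refine (Ideal.finite_setOfPred_absNorm_le₀ (S := 𝓞 K) ⌊B⌋₊).subset ?_
  rintro P ⟨-, -, h⟩
  exact Nat.le_floor h

theorem choose_Q (hN2 : P_N2) (K : Type) [Field K] [NumberField K] (D : ℕ) (hD : IsFund D)
    (h2 : Module.finrank ℚ K = 2) (hK : NumberField.discr K = (D : ℤ)) (a : ℝ) (X : ℕ) (B : ℝ)
    (hB : B ≤ (el X) ^ a) (S : Set (nonZeroDivisors (Ideal (𝓞 K)))) (hS : S ⊆ Tiny K B) :
    ∃ (Q : Finset ℕ) (I : ℕ → nonZeroDivisors (Ideal (𝓞 K))), Q ⊆ PX a X ∧
      (∀ p ∈ Q, Ideal.absNorm (I p : Ideal (𝓞 K)) = p) ∧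
      (∀ k, ∀ s ∈ Q.powersetCard k, (s.val.map fun p => ClassGroup.mk0 (I p)).prod ∈ Prods S k) ∧
      S.ncard ≤ 2 * (Q.card + 1) := by
  let f : nonZeroDivisors (Ideal (𝓞 K)) → ℕ := fun P => Ideal.absNorm (P : Ideal (𝓞 K))
  set Q : Finset ℕ := (PX a X).filter (fun p => ∃ P ∈ S, f P = p) with hQ
  let I : ℕ → nonZeroDivisors (Ideal (𝓞 K)) := fun p =>
    if h : ∃ P ∈ S, f P = p then h.choose else 1
  have hI : ∀ p ∈ Q, I p ∈ S ∧ f (I p) = p := by
    intro p hp
    have h := (Finset.mem_filter.1 hp).2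
    have e : I p = h.choose := dif_pos h
    rw [e]
    exact h.choose_spec
  refine ⟨Q, I, Finset.filter_subset _ _, fun p hp => (hI p hp).2, ?_, ?_⟩
  · intro k s hs
    obtain ⟨h1, h2⟩ := Finset.mem_powersetCard.1 hs
    refine ⟨s.val.map I, ?_, ?_, ?_⟩
    · intro P hP
      obtain ⟨p, hp, rfl⟩ := Multiset.mem_map.1 hP
      exact (hI p (h1 hp)).1
    · rw [Multiset.card_map]
      exact h2
    · rw [Multiset.map_map]
      rfl
  have hfin := (tiny_finite K B).subset hS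
  set F := hfin.toFinset with hF
  have hFm : ∀ P, P ∈ F ↔ P ∈ S := fun P => Set.Finite.mem_toFinset _
  rw [Set.ncard_eq_toFinset_card _ hfin, ← hF]
  have h3 : ∀ p ∈ F.image f, (F.filter (fun P => f P = p)).card ≤ 2 := by
    intro p hp
    obtain ⟨P, hP, hPp⟩ := Finset.mem_image.1 hp
    have hpp : p.Prime := by
      rw [← hPp]
      exact (hS ((hFm P).1 hP)).2.1
    refine le_trans ?_ (two_ideals hN2 K D hD h2 hK p hpp)
    have hfi : Finite {I : Ideal (𝓞 K) // Ideal.absNorm I = p} :=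
      (Ideal.finite_setOfPred_absNorm_eq (S := 𝓞 K) p).to_subtype
    let e : {P // P ∈ F.filter (fun P => f P = p)} → {I : Ideal (𝓞 K) // Ideal.absNorm I = p} :=
      fun P => ⟨(P.1 : Ideal (𝓞 K)), (Finset.mem_filter.1 P.2).2⟩
    have he : Function.Injective e := by
      intro P P' h
      have h5 := congrArg Subtype.val h
      exact Subtype.ext (Subtype.ext h5)
    have h6 := Nat.card_le_card_of_injective e he
    rwa [Nat.card_eq_fintype_card, Fintype.card_coe] at h6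
  have h4 := Finset.card_le_mul_card_image F 2 h3
  refine h4.trans ?_
  have h5 : F.image f ⊆ insert 2 Q := by
    intro p hp
    obtain ⟨P, hP, hPp⟩ := Finset.mem_image.1 hp
    have hPt := hS ((hFm P).1 hP)
    rw [Finset.mem_insert]
    by_cases hp2 : p = 2
    · exact Or.inl hp2
    right
    rw [hQ, Finset.mem_filter]
    refine ⟨?_, P, (hFm P).1 hP, hPp⟩
    have hpp : p.Prime := by
      rw [← hPp]
      exact hPt.2.1
    unfold PX
    rw [Finset.mem_filter, Finset.mem_Icc]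
    refine ⟨⟨?_, ?_⟩, hpp⟩
    · have := hpp.two_le
      omega
    · apply Nat.le_floor
      rw [← hPp]
      exact hPt.2.2.trans hB
  have h6 : (F.image f).card ≤ Q.card + 1 := (Finset.card_le_card h5).trans (Finset.card_insert_le _ _)
  omega

/-- enough primes -/
theorem enough {a η c : ℝ} {X : ℕ} (h : Par a η c X) (hc : c = 2 ^ a) (ha : 1 < a) {κ : ℝ}
    (hκ0 : 0 ≤ κ) (hκ : κ ≤ a - 1) {d : ℕ} (hd : (X : ℝ) ≤ 4 * d) {n σ : ℕ}
    (hn : (Real.log d) ^ (a - κ) ≤ n) (hσ : n ≤ 2 * (σ + 1)) :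
    (el X) ^ (a - κ) / (4 * c) ≤ σ := by
  have hX0 := h.posX
  have hel := h.el_pos
  have hla := h.la1
  have hlac := h.lac
  have hd0 : (0 : ℝ) < d := by linarith
  have hle := h.la_le
  have hc1 : 2 ≤ c := by
    rw [hc]
    calc (2 : ℝ) = 2 ^ (1 : ℝ) := (Real.rpow_one 2).symm
      _ ≤ 2 ^ a := Real.rpow_le_rpow_of_exponent_le (by norm_num) ha.le
  have hlog : el X / 2 ≤ Real.log d := by
    have h1 : Real.log X ≤ Real.log (4 * d) := Real.log_le_log hX0 hd
    rw [Real.log_mul (by norm_num) hd0.ne'] at h1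
    have e2 : Real.log 4 = 2 * Real.log 2 := by
      rw [show (4 : ℝ) = 2 ^ 2 by norm_num, Real.log_pow]; norm_num
    have h3 := h.el_eq
    have := Real.log_two_lt_d9
    linarith
  have h1 : (el X) ^ (a - κ) / c ≤ n := by
    refine le_trans ?_ hn
    calc (el X) ^ (a - κ) / c ≤ (el X) ^ (a - κ) / 2 ^ (a - κ) := by
          apply div_le_div_of_nonneg_left (Real.rpow_nonneg hel.le _) (by positivity)
          rw [hc]
          exact Real.rpow_le_rpow_of_exponent_le (by norm_num) (by linarith)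
      _ = (el X / 2) ^ (a - κ) := (Real.div_rpow hel.le (by norm_num) _).symm
      _ ≤ (Real.log d) ^ (a - κ) := Real.rpow_le_rpow (by positivity) hlog (by linarith)
  have h7 : (1 : ℝ) ≤ el X := by linarith
  have h8 : el X ≤ (el X) ^ (a - κ) := by
    calc el X = (el X) ^ (1 : ℝ) := (Real.rpow_one _).symm
      _ ≤ _ := Real.rpow_le_rpow_of_exponent_le h7 (by linarith)
  have h9 : (4 : ℝ) ≤ n := by
    refine le_trans ?_ h1
    rw [le_div_iff₀ (by linarith)]
    linarith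
  have h10 : (n : ℝ) ≤ 2 * (σ + 1) := by exact_mod_cast hσ
  have h11 : (el X) ^ (a - κ) / (4 * c) = ((el X) ^ (a - κ) / c) / 4 := by
    rw [div_div]
    congr 1
    ring
  rw [h11]
  linarith

end Pool.Agent.U880.TC
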