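import Mathlib

set_option autoImplicit false

/-! Parameters: number of factors, sizes of binomial coefficients. -/

namespace Pool.Agent.U880.TC

open Finset Filter

theorem l2pos : 0 < Real.log 2 := Real.log_pos (by norm_num)

noncomputable def el (X : ℕ) : ℝ := Real.log (2 * X)
noncomputable def la (X : ℕ) : ℝ := Real.log (el X)
noncomputable def y1 (a : ℝ) (X : ℕ) : ℕ := ⌊(el X) ^ a⌋₊
/-- the number of factors -/
noncomputable def kk (a u : ℝ) (X : ℕ) : ℕ := ⌊u * el X / (a * la X)⌋₊ - 1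

theorem el_tendsto : Tendsto (fun X : ℕ => el X) atTop atTop :=
  Real.tendsto_log_atTop.comp (Tendsto.const_mul_atTop (by norm_num) tendsto_natCast_atTop_atTop)

theorem la_tendsto : Tendsto (fun X : ℕ => la X) atTop atTop :=
  Real.tendsto_log_atTop.comp el_tendsto

/-- all the conditions for large `X` -/
structure Par (a η c : ℝ) (X : ℕ) : Prop where
  X8 : 8 ≤ X
  la1 : 4 ≤ la X
  lac : 16 * c ≤ la X
  logc : 2 * Real.log (4 * c) ≤ (η / 4) * (a * la X)
  ela : 2 * a * la X ≤ (η / 4) * Real.log X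
  log2 : Real.log 2 ≤ (η / 4) * Real.log X

theorem par_ev (a η c : ℝ) (ha : 1 < a) (hη : 0 < η) : ∀ᶠ X : ℕ in atTop, Par a η c X := by
  have h1 := la_tendsto.eventually_ge_atTop 4
  have h2 := la_tendsto.eventually_ge_atTop (16 * c)
  have h3 := la_tendsto.eventually_ge_atTop (2 * Real.log (4 * c) / ((η / 4) * a))
  have h4 : ∀ᶠ X : ℕ in atTop, la X ≤ (η / (16 * a)) * el X := by
    have h := Real.isLittleO_log_id_atTop.bound (show (0 : ℝ) < η / (16 * a) by positivity)
    have h' := el_tendsto.eventually (h.and (eventually_ge_atTop 1))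
    filter_upwards [h'] with X hX
    obtain ⟨hX1, hX2⟩ := hX
    simp only [id_eq, Real.norm_eq_abs] at hX1
    rw [abs_of_nonneg (by linarith : (0:ℝ) ≤ el X)] at hX1
    exact (le_abs_self _).trans hX1
  have h5 : ∀ᶠ X : ℕ in atTop, Real.log 2 * (4 / η) ≤ Real.log X :=
    (Real.tendsto_log_atTop.comp tendsto_natCast_atTop_atTop).eventually_ge_atTop _
  filter_upwards [h1, h2, h3, h4, h5, eventually_ge_atTop 8] with X a1 a2 a3 a4 a5 a6
  have hXr : (8 : ℝ) ≤ X := by exact_mod_cast a6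
  have hel : el X ≤ 2 * Real.log X := by
    unfold el
    rw [Real.log_mul (by norm_num) (by linarith)]
    have : Real.log 2 ≤ Real.log X := Real.log_le_log (by norm_num) (by linarith)
    linarith
  refine ⟨a6, a1, a2, ?_, ?_, ?_⟩
  · rw [div_le_iff₀ (by positivity)] at a3
    linarith
  · have h7 : la X ≤ (η / (16 * a)) * (2 * Real.log X) := a4.trans (by gcongr)
    calc 2 * a * la X ≤ 2 * a * ((η / (16 * a)) * (2 * Real.log X)) := by gcongr
      _ = (η / 4) * Real.log X := by field_simp; ring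
  · calc Real.log 2 = (η / 4) * (Real.log 2 * (4 / η)) := by field_simp
      _ ≤ _ := by gcongr

theorem Par.posX {a η c : ℝ} {X : ℕ} (h : Par a η c X) : (0 : ℝ) < X := by
  have := h.X8
  have h1 : 0 < X := by omega
  exact_mod_cast h1

theorem Par.el_eq {a η c : ℝ} {X : ℕ} (h : Par a η c X) : el X = Real.log 2 + Real.log X := by
  unfold el
  rw [Real.log_mul (by norm_num) h.posX.ne']

theorem Par.el_pos {a η c : ℝ} {X : ℕ} (h : Par a η c X) : 0 < el X := by
  rw [h.el_eq]
  have : 0 ≤ Real.log X := Real.log_natCast_nonneg X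
  have := l2pos
  linarith

theorem Par.exp_la {a η c : ℝ} {X : ℕ} (h : Par a η c X) : Real.exp (la X) = el X :=
  Real.exp_log h.el_pos

theorem Par.la_le {a η c : ℝ} {X : ℕ} (h : Par a η c X) : la X ≤ el X := by
  have := Real.add_one_le_exp (la X)
  rw [h.exp_la] at this
  linarith

theorem Par.el_rpow {a η c : ℝ} {X : ℕ} (h : Par a η c X) (v : ℝ) :
    (el X) ^ v = Real.exp (v * la X) := by
  rw [Real.rpow_def_of_pos h.el_pos]
  unfold la
  rw [mul_comm]

theorem Par.X_rpow {a η c : ℝ} {X : ℕ} (h : Par a η c X) (v : ℝ) :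
    (X : ℝ) ^ v = Real.exp (v * Real.log X) := by
  rw [Real.rpow_def_of_pos h.posX, mul_comm]

theorem kk_up {a η c : ℝ} {X : ℕ} (h : Par a η c X) (ha : 1 < a) {u : ℝ} (hu : 0 ≤ u) :
    (kk a u X : ℝ) * (a * la X) ≤ u * el X := by
  have h1 := h.la1
  have h0 : 0 < a * la X := by positivity
  have h2 : (kk a u X : ℝ) ≤ u * el X / (a * la X) := by
    unfold kk
    have h3 : ((⌊u * el X / (a * la X)⌋₊ - 1 : ℕ) : ℝ) ≤ (⌊u * el X / (a * la X)⌋₊ : ℝ) := by
      exact_mod_cast Nat.sub_le _ _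
    have h4 : 0 ≤ u * el X / (a * la X) := div_nonneg (mul_nonneg hu h.el_pos.le) h0.le
    exact h3.trans (Nat.floor_le h4)
  rwa [le_div_iff₀ h0] at h2

theorem kk_up1 {a η c : ℝ} {X : ℕ} (h : Par a η c X) (ha : 1 < a) {u : ℝ} (hu : 0 ≤ u)
    (hk : 1 ≤ kk a u X) : ((kk a u X : ℝ) + 1) * (a * la X) ≤ u * el X := by
  have h1 := h.la1
  have h0 : 0 < a * la X := by positivity
  have h2 : (kk a u X : ℝ) + 1 ≤ u * el X / (a * la X) := by
    unfold kk at hk ⊢
    have h3 : ((⌊u * el X / (a * la X)⌋₊ - 1 : ℕ) : ℝ) + 1 = (⌊u * el X / (a * la X)⌋₊ : ℝ) := by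
      have : (⌊u * el X / (a * la X)⌋₊ - 1) + 1 = ⌊u * el X / (a * la X)⌋₊ := by omega
      exact_mod_cast this
    have h4 : 0 ≤ u * el X / (a * la X) := div_nonneg (mul_nonneg hu h.el_pos.le) h0.le
    rw [h3]
    exact Nat.floor_le h4
  rwa [le_div_iff₀ h0] at h2

theorem kk_low {a η c : ℝ} {X : ℕ} (h : Par a η c X) (ha : 1 < a) (u : ℝ) :
    u * el X ≤ ((kk a u X : ℝ) + 2) * (a * la X) := by
  have h1 := h.la1
  have h0 : 0 < a * la X := by positivity
  rw [← div_le_iff₀ h0]
  unfold kk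
  have h2 : u * el X / (a * la X) < (⌊u * el X / (a * la X)⌋₊ : ℝ) + 1 := Nat.lt_floor_add_one _
  have h3 : (⌊u * el X / (a * la X)⌋₊ : ℝ) ≤ ((⌊u * el X / (a * la X)⌋₊ - 1 : ℕ) : ℝ) + 1 := by
    have : ⌊u * el X / (a * la X)⌋₊ ≤ (⌊u * el X / (a * la X)⌋₊ - 1) + 1 := by omega
    exact_mod_cast this
  linarith

/-- `C ^ k` is small -/
theorem kk_const {a η c : ℝ} {X : ℕ} (h : Par a η c X) (ha : 1 < a) (hη : 0 < η) {u : ℝ}
    (hu : 0 ≤ u) (hu1 : u ≤ 1) (hc : 1 ≤ c) :
    (kk a u X : ℝ) * Real.log (4 * c) ≤ (η / 4) * Real.log X := by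
  have h1 := h.la1
  have h0 : 0 < a * la X := by positivity
  have h2 := kk_up h ha hu
  have hel := h.el_pos
  have hlog : 0 ≤ Real.log (4 * c) := Real.log_nonneg (by linarith)
  have hX : Real.log 2 ≤ Real.log X :=
    Real.log_le_log (by norm_num) (by have := h.X8; exact_mod_cast (by omega : 2 ≤ X))
  have h3 : (kk a u X : ℝ) * (a * la X) ≤ 2 * Real.log X := by
    refine h2.trans ?_
    calc u * el X ≤ 1 * el X := by gcongr
      _ = Real.log 2 + Real.log X := by rw [one_mul, h.el_eq]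
      _ ≤ _ := by linarith
  have h4 := h.logc
  have h5 : (kk a u X : ℝ) * Real.log (4 * c) * (a * la X) ≤
      ((η / 4) * Real.log X) * (a * la X) := by
    have hkn : (0 : ℝ) ≤ kk a u X := Nat.cast_nonneg _
    have hX0 : 0 ≤ Real.log X := Real.log_natCast_nonneg X
    calc (kk a u X : ℝ) * Real.log (4 * c) * (a * la X)
        = ((kk a u X : ℝ) * (a * la X)) * Real.log (4 * c) := by ring
      _ ≤ (2 * Real.log X) * Real.log (4 * c) := by gcongr
      _ = Real.log X * (2 * Real.log (4 * c)) := by ring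
      _ ≤ Real.log X * ((η / 4) * (a * la X)) := by gcongr
      _ = _ := by ring
  exact le_of_mul_le_mul_right h5 h0

/-- `8 ^ k` is small -/
theorem eight_pow {a η c : ℝ} {X k : ℕ} (h : Par a η c X) (ha : 1 < a) (hη : 0 < η) (hc : 1 ≤ c)
    (hk : (k : ℝ) * (a * la X) ≤ el X) : (8 : ℝ) ^ k ≤ (X : ℝ) ^ η := by
  have h1 := h.la1
  have h0 : 0 < a * la X := by positivity
  have hlog : 0 ≤ Real.log (4 * c) := Real.log_nonneg (by linarith)
  have hX : Real.log 2 ≤ Real.log X :=
    Real.log_le_log (by norm_num) (by have := h.X8; exact_mod_cast (by omega : 2 ≤ X))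
  have hX0 : 0 ≤ Real.log X := Real.log_natCast_nonneg X
  have h3 : (k : ℝ) * (a * la X) ≤ 2 * Real.log X := by
    refine hk.trans ?_
    rw [h.el_eq]
    linarith
  have h4 := h.logc
  have hk0 : (0 : ℝ) ≤ k := Nat.cast_nonneg _
  have h5 : (k : ℝ) * Real.log (4 * c) * (a * la X) ≤ ((η / 4) * Real.log X) * (a * la X) := by
    calc (k : ℝ) * Real.log (4 * c) * (a * la X)
        = ((k : ℝ) * (a * la X)) * Real.log (4 * c) := by ring
      _ ≤ (2 * Real.log X) * Real.log (4 * c) := by gcongr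
      _ = Real.log X * (2 * Real.log (4 * c)) := by ring
      _ ≤ Real.log X * ((η / 4) * (a * la X)) := by gcongr
      _ = _ := by ring
  have h6 : (k : ℝ) * Real.log (4 * c) ≤ (η / 4) * Real.log X := le_of_mul_le_mul_right h5 h0
  have h2 : Real.log 8 ≤ 2 * Real.log (4 * c) := by
    have e1 : 2 * Real.log (4 * c) = Real.log ((4 * c) ^ 2) := by rw [Real.log_pow]; norm_num
    rw [e1]
    exact Real.log_le_log (by norm_num) (by nlinarith)
  rw [h.X_rpow]
  calc (8 : ℝ) ^ k = Real.exp ((k : ℝ) * Real.log 8) := by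
        rw [Real.exp_nat_mul, Real.exp_log (by norm_num)]
    _ ≤ Real.exp (η * Real.log X) := by
        apply Real.exp_le_exp.2
        calc (k : ℝ) * Real.log 8 ≤ (k : ℝ) * (2 * Real.log (4 * c)) := by gcongr
          _ = 2 * ((k : ℝ) * Real.log (4 * c)) := by ring
          _ ≤ 2 * ((η / 4) * Real.log X) := by gcongr
          _ ≤ _ := by nlinarith

theorem y1_pow {a η c : ℝ} {X : ℕ} (h : Par a η c X) (k : ℕ) :
    ((y1 a X : ℕ) : ℝ) ^ k ≤ Real.exp ((k : ℝ) * (a * la X)) := by
  have h1 : ((y1 a X : ℕ) : ℝ) ≤ Real.exp (a * la X) := by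
    rw [← h.el_rpow]
    exact Nat.floor_le (Real.rpow_nonneg h.el_pos.le _)
  calc ((y1 a X : ℕ) : ℝ) ^ k ≤ (Real.exp (a * la X)) ^ k := pow_le_pow_left₀ (Nat.cast_nonneg _) h1 k
    _ = _ := by rw [← Real.exp_nat_mul]

theorem y1_le_X {a η c : ℝ} {X : ℕ} (h : Par a η c X) (ha : 1 < a) {u : ℝ} (hu : 0 ≤ u)
    (hu1 : u ≤ 1) : (y1 a X) ^ (kk a u X) ≤ X := by
  have hX := h.X8
  rcases Nat.eq_zero_or_pos (kk a u X) with hk | hk
  · rw [hk, pow_zero]; omega
  have h1 := kk_up1 h ha hu hk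
  have h2 := y1_pow h (kk a u X)
  have hla := h.la1
  have h3 : (kk a u X : ℝ) * (a * la X) ≤ el X - a * la X := by
    have : u * el X ≤ 1 * el X := mul_le_mul_of_nonneg_right hu1 h.el_pos.le
    nlinarith
  have h4 : ((y1 a X : ℕ) : ℝ) ^ (kk a u X) ≤ X := by
    refine h2.trans ?_
    calc Real.exp ((kk a u X : ℝ) * (a * la X)) ≤ Real.exp (el X - a * la X) := Real.exp_le_exp.2 h3
      _ ≤ Real.exp (Real.log X) := by
        apply Real.exp_le_exp.2
        rw [h.el_eq]
        have := Real.log_two_lt_d9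
        nlinarith
      _ = X := Real.exp_log h.posX
  exact_mod_cast h4

theorem y1_half {a η c : ℝ} {X : ℕ} (h : Par a η c X) (ha : 1 < a) :
    4 * ((y1 a X) ^ (kk a (1 / 2) X) * (y1 a X) ^ (kk a (1 / 2) X)) < X := by
  have hX := h.X8
  rcases Nat.eq_zero_or_pos (kk a (1 / 2) X) with hk | hk
  · rw [hk, pow_zero]; omega
  have h1 := kk_up1 h ha (by norm_num : (0 : ℝ) ≤ 1 / 2) hk
  have h2 := y1_pow h (kk a (1 / 2) X)
  have hla := h.la1
  have h5 : (0 : ℝ) ≤ ((y1 a X : ℕ) : ℝ) ^ (kk a (1 / 2) X) := by positivity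
  have h4 : (4 : ℝ) * (((y1 a X : ℕ) : ℝ) ^ (kk a (1 / 2) X) *
      ((y1 a X : ℕ) : ℝ) ^ (kk a (1 / 2) X)) < X := by
    calc (4 : ℝ) * (((y1 a X : ℕ) : ℝ) ^ (kk a (1 / 2) X) * ((y1 a X : ℕ) : ℝ) ^ (kk a (1 / 2) X))
        ≤ 4 * (Real.exp ((kk a (1 / 2) X : ℝ) * (a * la X)) *
          Real.exp ((kk a (1 / 2) X : ℝ) * (a * la X))) := by gcongr
      _ = Real.exp (Real.log 4) * Real.exp (2 * ((kk a (1 / 2) X : ℝ) * (a * la X))) := by
          rw [Real.exp_log (by norm_num), ← Real.exp_add]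
          congr 2
          ring
      _ = Real.exp (Real.log 4 + 2 * ((kk a (1 / 2) X : ℝ) * (a * la X))) := by rw [Real.exp_add]
      _ < Real.exp (Real.log X) := by
          apply Real.exp_lt_exp.2
          have e1 := h.el_eq
          have e2 : Real.log 4 = 2 * Real.log 2 := by
            rw [show (4 : ℝ) = 2 ^ 2 by norm_num, Real.log_pow]; norm_num
          have := Real.log_two_lt_d9
          nlinarith
      _ = X := Real.exp_log h.posX
  exact_mod_cast h4

/-! ## binomial coefficients -/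

theorem bin_low (σ k : ℕ) (h : 2 * k ≤ σ) :
    ((σ : ℝ) / 2) ^ k ≤ (k.factorial : ℝ) * (σ.choose k : ℝ) := by
  have h1 : ((σ + 1 - k : ℕ) : ℝ) ^ k ≤ (k.factorial : ℝ) * (σ.choose k : ℝ) := by
    have h2 : (σ + 1 - k) ^ k ≤ σ.descFactorial k := Nat.pow_sub_le_descFactorial σ k
    rw [Nat.descFactorial_eq_factorial_mul_choose] at h2
    exact_mod_cast h2
  refine le_trans (pow_le_pow_left₀ (by positivity) ?_ k) h1
  rw [div_le_iff₀ (by norm_num)]
  have : σ ≤ (σ + 1 - k) * 2 := by omega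
  exact_mod_cast this

theorem bin_up (π k : ℕ) : (k.factorial : ℝ) * (π.choose k : ℝ) ≤ (π : ℝ) ^ k := by
  have h2 : π.descFactorial k ≤ π ^ k := Nat.descFactorial_le_pow π k
  rw [Nat.descFactorial_eq_factorial_mul_choose] at h2
  exact_mod_cast h2

theorem bin_low2 (σ k : ℕ) (h : 2 * k ≤ σ) (l : ℝ) (hl : 0 < l) (hk : (k : ℝ) ≤ l) :
    ((σ : ℝ) / (2 * l)) ^ k ≤ (σ.choose k : ℝ) := by
  have h1 := bin_low σ k h
  have h2 : (k.factorial : ℝ) ≤ l ^ k := by
    have h3 : k.factorial ≤ k ^ k := Nat.factorial_le_pow k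
    calc (k.factorial : ℝ) ≤ (k : ℝ) ^ k := by exact_mod_cast h3
      _ ≤ l ^ k := pow_le_pow_left₀ (Nat.cast_nonneg _) hk k
  have h3 : ((σ : ℝ) / (2 * l)) ^ k * l ^ k = ((σ : ℝ) / 2) ^ k := by
    rw [← mul_pow]
    congr 1
    field_simp
  have h4 : (0 : ℝ) < l ^ k := by positivity
  refine le_of_mul_le_mul_right ?_ h4
  rw [h3]
  calc ((σ : ℝ) / 2) ^ k ≤ (k.factorial : ℝ) * (σ.choose k : ℝ) := h1
    _ ≤ l ^ k * (σ.choose k : ℝ) := by gcongr
    _ = _ := by ring

theorem bin_ratio (σ π k : ℕ) (h : 2 * k ≤ σ) (hσ : 0 < σ) :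
    (π.choose k : ℝ) ≤ (σ.choose k : ℝ) * (2 * π / σ) ^ k := by
  have h1 := bin_low σ k h
  have h2 := bin_up π k
  have hf : (0 : ℝ) < k.factorial := by exact_mod_cast Nat.factorial_pos k
  have hσ' : (0 : ℝ) < σ := by exact_mod_cast hσ
  refine le_of_mul_le_mul_left ?_ hf
  calc (k.factorial : ℝ) * (π.choose k : ℝ) ≤ (π : ℝ) ^ k := h2
    _ = ((σ : ℝ) / 2) ^ k * (2 * π / σ) ^ k := by
        rw [← mul_pow]
        congr 1
        field_simp
    _ ≤ ((k.factorial : ℝ) * (σ.choose k : ℝ)) * (2 * π / σ) ^ k := by gcongr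
    _ = _ := by ring

/-- the two estimates -/
theorem sizes {a η c : ℝ} {X : ℕ} (h : Par a η c X) (ha : 1 < a) (hη : 0 < η) (hc : 1 ≤ c)
    {κ u : ℝ} (hκ0 : 0 ≤ κ) (hκ : κ ≤ a - 1) (hu : 0 ≤ u) (hu1 : u ≤ 1) {σ π : ℕ}
    (hσ : (el X) ^ (a - κ) / (4 * c) ≤ σ) (hπ : (π : ℝ) ≤ (el X) ^ a) :
    (X : ℝ) ^ (u * (a - κ - 1) / a - η) ≤ (σ.choose (kk a u X) : ℝ) ∧
    (π.choose (kk a u X) : ℝ) ≤ (σ.choose (kk a u X) : ℝ) * (X : ℝ) ^ (u * κ / a + η) := by
  have hla := h.la1
  have hel := h.el_pos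
  have ha0 : 0 < a := by linarith
  have hc0 : 0 < c := by linarith
  have h1 := kk_up h ha hu
  have h2 := kk_low h ha u
  have h3 := kk_const h ha hη hu hu1 hc
  have h4 := h.ela
  have h5 := h.log2
  have hX0 : 0 ≤ Real.log X := Real.log_natCast_nonneg X
  set k := kk a u X with hk
  have hk0 : (0 : ℝ) ≤ k := Nat.cast_nonneg _
  -- k is small
  have hkl : (k : ℝ) * la X ≤ el X := by
    have h6 : (k : ℝ) * la X ≤ (k : ℝ) * (a * la X) := by
      apply mul_le_mul_of_nonneg_left _ hk0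
      nlinarith
    refine h6.trans (h1.trans ?_)
    calc u * el X ≤ 1 * el X := by gcongr
      _ = _ := one_mul _
  have hk_el : (k : ℝ) ≤ el X := by nlinarith
  have hσ1 : el X / (4 * c) ≤ σ := by
    refine le_trans ?_ hσ
    have : el X = (el X) ^ (1 : ℝ) := (Real.rpow_one _).symm
    have h7 : (1 : ℝ) ≤ el X := by
      have := h.la_le
      linarith
    have h8 : (el X) ^ (1 : ℝ) ≤ (el X) ^ (a - κ) := Real.rpow_le_rpow_of_exponent_le h7 (by linarith)
    rw [← this] at h8
    gcongr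
  have h2k : 2 * k ≤ σ := by
    have h6 : (2 : ℝ) * k ≤ σ := by
      refine le_trans ?_ hσ1
      rw [le_div_iff₀ (by positivity)]
      have := h.lac
      nlinarith
    exact_mod_cast h6
  have hσ0 : 0 < σ := by
    have : (0 : ℝ) < σ := lt_of_lt_of_le (by positivity) hσ1
    exact_mod_cast this
  have hσr : (0 : ℝ) < σ := by exact_mod_cast hσ0
  constructor
  · have h6 := bin_low2 σ k h2k (el X) hel hk_el
    refine le_trans ?_ h6
    have h7 : Real.exp ((a - κ - 1) * la X - Real.log (4 * c) - Real.log 2) ≤ (σ : ℝ) / (2 * el X) := by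
      rw [le_div_iff₀ (by positivity), Real.exp_sub, Real.exp_sub, Real.exp_log (by positivity),
        Real.exp_log (by norm_num)]
      have h8 : Real.exp ((a - κ - 1) * la X) * el X = (el X) ^ (a - κ) := by
        rw [h.el_rpow]
        conv_lhs => rw [← h.exp_la]
        rw [← Real.exp_add]
        congr 1
        ring_nf
      calc Real.exp ((a - κ - 1) * la X) / (4 * c) / 2 * (2 * el X)
          = (Real.exp ((a - κ - 1) * la X) * el X) / (4 * c) := by ring
        _ ≤ σ := by rw [h8]; exact hσ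
    calc (X : ℝ) ^ (u * (a - κ - 1) / a - η) = Real.exp ((u * (a - κ - 1) / a - η) * Real.log X) :=
          h.X_rpow _
      _ ≤ Real.exp ((k : ℝ) * ((a - κ - 1) * la X - Real.log (4 * c) - Real.log 2)) := by
          apply Real.exp_le_exp.2
          have e1 : u * (a - κ - 1) / a * el X ≤ ((k : ℝ) + 2) * la X * (a - κ - 1) := by
            calc u * (a - κ - 1) / a * el X = (u * el X) * (a - κ - 1) / a := by ring
              _ ≤ (((k : ℝ) + 2) * (a * la X)) * (a - κ - 1) / a := by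
                  have : 0 ≤ a - κ - 1 := by linarith
                  gcongr
              _ = _ := by field_simp
          have e2 : u * (a - κ - 1) / a * Real.log X ≤ u * (a - κ - 1) / a * el X := by
            apply mul_le_mul_of_nonneg_left _ (div_nonneg (mul_nonneg hu (by linarith)) ha0.le)
            rw [h.el_eq]
            have := l2pos
            linarith
          have e3 : (k : ℝ) * Real.log 2 ≤ (k : ℝ) * Real.log (4 * c) := by
            apply mul_le_mul_of_nonneg_left _ hk0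
            exact Real.log_le_log (by norm_num) (by linarith)
          have e5 : 2 * la X * (a - κ - 1) ≤ 2 * a * la X := by nlinarith
          have e6 := kk_const h ha (η := η) hη hu hu1 hc
          have e4 : (k : ℝ) * Real.log (4 * c) ≤ (η / 4) * Real.log X := h3
          have e7 : (k : ℝ) * Real.log 2 ≤ (1 / 2) * ((k : ℝ) * Real.log (4 * c)) := by
            have : 2 * Real.log 2 ≤ Real.log (4 * c) := by
              have e8 : 2 * Real.log 2 = Real.log 4 := by
                rw [show (4 : ℝ) = 2 ^ 2 by norm_num, Real.log_pow]; norm_num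
              rw [e8]
              exact Real.log_le_log (by norm_num) (by linarith)
            nlinarith
          nlinarith
      _ = (Real.exp ((a - κ - 1) * la X - Real.log (4 * c) - Real.log 2)) ^ k := by
          rw [← Real.exp_nat_mul]
      _ ≤ _ := pow_le_pow_left₀ (Real.exp_pos _).le h7 k
  · have h6 := bin_ratio σ π k h2k hσ0
    refine h6.trans ?_
    apply mul_le_mul_of_nonneg_left _ (Nat.cast_nonneg _)
    have h7 : 2 * (π : ℝ) / σ ≤ Real.exp (κ * la X + Real.log (4 * c) + Real.log 2) := by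
      rw [div_le_iff₀ hσr, Real.exp_add, Real.exp_add, Real.exp_log (by positivity),
        Real.exp_log (by norm_num)]
      have h8 : (el X) ^ a = Real.exp (κ * la X) * (el X) ^ (a - κ) := by
        rw [h.el_rpow, h.el_rpow, ← Real.exp_add]
        congr 1
        ring
      have h9 : (el X) ^ (a - κ) ≤ (4 * c) * σ := by
        rw [div_le_iff₀ (by positivity)] at hσ
        linarith
      calc 2 * (π : ℝ) ≤ 2 * (Real.exp (κ * la X) * (el X) ^ (a - κ)) := by rw [← h8]; gcongr
        _ ≤ 2 * (Real.exp (κ * la X) * ((4 * c) * σ)) := by gcongr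
        _ = _ := by ring
    calc (2 * (π : ℝ) / σ) ^ k ≤ (Real.exp (κ * la X + Real.log (4 * c) + Real.log 2)) ^ k :=
          pow_le_pow_left₀ (by positivity) h7 k
      _ = Real.exp ((k : ℝ) * (κ * la X + Real.log (4 * c) + Real.log 2)) := by
          rw [← Real.exp_nat_mul]
      _ ≤ Real.exp ((u * κ / a + η) * Real.log X) := by
          apply Real.exp_le_exp.2
          have e1 : (k : ℝ) * (κ * la X) ≤ u * κ / a * el X := by
            calc (k : ℝ) * (κ * la X) = ((k : ℝ) * (a * la X)) * κ / a := by field_simp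
              _ ≤ (u * el X) * κ / a := by gcongr
              _ = _ := by ring
          have e2 : u * κ / a ≤ 1 := by
            rw [div_le_one ha0]
            nlinarith
          have e3 : u * κ / a * el X ≤ u * κ / a * Real.log X + Real.log 2 := by
            rw [h.el_eq]
            have := l2pos
            have e4 : 0 ≤ u * κ / a := by positivity
            nlinarith
          have e7 : (k : ℝ) * Real.log 2 ≤ (1 / 2) * ((k : ℝ) * Real.log (4 * c)) := by
            have : 2 * Real.log 2 ≤ Real.log (4 * c) := by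
              have e8 : 2 * Real.log 2 = Real.log 4 := by
                rw [show (4 : ℝ) = 2 ^ 2 by norm_num, Real.log_pow]; norm_num
              rw [e8]
              exact Real.log_le_log (by norm_num) (by linarith)
            nlinarith
          nlinarith
      _ = _ := (h.X_rpow _).symm

end Pool.Agent.U880.TC
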