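import Pool.Agent.U880.TC.Ineq
import Pool.Agent.U880.TC.Par

set_option autoImplicit false

/-! The bound of the index for one discriminant. -/

namespace Pool.Agent.U880.TC

open Finset Filter NumberField Pool.Agent.H38R2.CG Pool.Agent.H38R2.CG2 Pool.Agent.H38R2.CG3
open scoped Classical

/-- the odd primes up to the bound -/
noncomputable def PX (a : ℝ) (X : ℕ) : Finset ℕ := (Finset.Icc 3 (y1 a X)).filter Nat.Prime

theorem PX_mem {a : ℝ} {X p : ℕ} (h : p ∈ PX a X) : p.Prime ∧ p ≠ 2 ∧ p ≤ y1 a X := by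
  unfold PX at h
  rw [Finset.mem_filter, Finset.mem_Icc] at h
  exact ⟨h.2, by omega, h.1.2⟩

theorem PX_card {a η c : ℝ} {X : ℕ} (h : Par a η c X) : ((PX a X).card : ℝ) ≤ (el X) ^ a := by
  have h1 : (PX a X).card ≤ y1 a X := by
    unfold PX
    refine (Finset.card_filter_le _ _).trans ?_
    rw [Nat.card_Icc]
    omega
  have h2 : ((y1 a X : ℕ) : ℝ) ≤ (el X) ^ a := Nat.floor_le (Real.rpow_nonneg h.el_pos.le _)
  have h3 : ((PX a X).card : ℝ) ≤ ((y1 a X : ℕ) : ℝ) := by exact_mod_cast h1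
  linarith

theorem prod_le_y1 {a : ℝ} {X k : ℕ} {s : Finset ℕ} (hs : s ∈ (PX a X).powersetCard k) :
    (∀ p ∈ s, p.Prime) ∧ s.card = k ∧ prodS s ≤ (y1 a X) ^ k := by
  obtain ⟨h1, h2⟩ := Finset.mem_powersetCard.1 hs
  refine ⟨fun p hp => (PX_mem (h1 hp)).1, h2, ?_⟩
  unfold prodS
  rw [← h2]
  exact Finset.prod_le_pow_card _ _ _ fun p hp => (PX_mem (h1 hp)).2.2

/-- the constants -/
structure Cst (η C : ℝ) (X : ℕ) : Prop where
  L : C * (2 + Real.log X) ≤ (X : ℝ) ^ η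
  four : 4 ≤ (X : ℝ) ^ η

/-- the factor in front -/
theorem front (hN3 : P_N3) (K : Type) [Field K] [NumberField K] (D : ℕ) (hD : IsFund D)
    (h2 : Module.finrank ℚ K = 2) (hK : NumberField.discr K = (D : ℤ)) {C η : ℝ} (hC : 0 < C)
    (hLone : ∀ D : ℕ, IsFund D → Lone D ≤ C * (1 + Real.log D)) {X : ℕ} (hX : 1 ≤ X)
    (hc : Cst η C X) (hDX : D ≤ 2 * X) :
    0 ≤ 2 * √(D : ℝ) * Lone D ∧ 2 * √(D : ℝ) * Lone D ≤ (X : ℝ) ^ (1 / 2 + 2 * η) := by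
  have hXr : (1 : ℝ) ≤ X := by exact_mod_cast hX
  have hX0 : (0 : ℝ) < X := by linarith
  have hD1 : 1 < D := hD.1
  have hDr : (1 : ℝ) < D := by exact_mod_cast hD1
  have hDX' : (D : ℝ) ≤ 2 * X := by exact_mod_cast hDX
  have hlogD : Real.log D ≤ 1 + Real.log X := by
    have h1 : Real.log D ≤ Real.log (2 * X) := Real.log_le_log (by linarith) hDX'
    rw [Real.log_mul (by norm_num) hX0.ne'] at h1
    have := Real.log_two_lt_d9
    linarith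
  have hL0 : 0 ≤ Lone D := (hN3 K D hD h2 hK).1
  have hL : Lone D ≤ (X : ℝ) ^ η := by
    refine (hLone D hD).trans (le_trans ?_ hc.L)
    apply mul_le_mul_of_nonneg_left _ hC.le
    linarith
  have hsD : √(D : ℝ) ≤ 2 * √(X : ℝ) := by
    rw [Real.sqrt_le_left (by positivity), mul_pow, Real.sq_sqrt hX0.le]
    linarith
  have hXη : 0 < (X : ℝ) ^ η := Real.rpow_pos_of_pos hX0 _
  refine ⟨by positivity, ?_⟩
  calc 2 * √(D : ℝ) * Lone D ≤ 2 * (2 * √(X : ℝ)) * (X : ℝ) ^ η := by gcongr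
    _ = 4 * (X : ℝ) ^ η * √(X : ℝ) := by ring
    _ ≤ (X : ℝ) ^ η * (X : ℝ) ^ η * √(X : ℝ) := by
        have := hc.four
        gcongr
    _ = (X : ℝ) ^ (1 / 2 + 2 * η) := by
        rw [Real.sqrt_eq_rpow, ← Real.rpow_add hX0, ← Real.rpow_add hX0]
        congr 1
        ring

theorem two_pow {a η c : ℝ} {X : ℕ} (h : Par a η c X) (ha : 1 < a) (hη : 0 < η) {u : ℝ}
    (hu : 0 ≤ u) (hu1 : u ≤ 1) (hc : 1 ≤ c) : (8 : ℝ) ^ (kk a u X) ≤ (X : ℝ) ^ η := by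
  have h1 := kk_const h ha hη hu hu1 hc
  have hk0 : (0 : ℝ) ≤ kk a u X := Nat.cast_nonneg _
  have h2 : Real.log 8 ≤ 2 * Real.log (4 * c) := by
    have e1 : 2 * Real.log (4 * c) = Real.log ((4 * c) ^ 2) := by rw [Real.log_pow]; norm_num
    rw [e1]
    exact Real.log_le_log (by norm_num) (by nlinarith)
  have hX0 : 0 ≤ Real.log X := Real.log_natCast_nonneg X
  rw [h.X_rpow]
  calc (8 : ℝ) ^ (kk a u X) = Real.exp ((kk a u X : ℝ) * Real.log 8) := by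
        rw [Real.exp_nat_mul, Real.exp_log (by norm_num)]
    _ ≤ Real.exp (η * Real.log X) := by
        apply Real.exp_le_exp.2
        calc (kk a u X : ℝ) * Real.log 8 ≤ (kk a u X : ℝ) * (2 * Real.log (4 * c)) := by gcongr
          _ = 2 * ((kk a u X : ℝ) * Real.log (4 * c)) := by ring
          _ ≤ 2 * ((η / 4) * Real.log X) := by gcongr
          _ ≤ _ := by nlinarith

/-- the bound for every discriminant -/
theorem index_all (hN0 : P_N0) (hN3 : P_N3) (h4 : P_N4) (hKF : P_KF)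
    (h5b : P_N5b) (hN6 : P_N6) (K : Type) [Field K] [NumberField K] (D : ℕ) (hD : IsFund D)
    (h2 : Module.finrank ℚ K = 2) (hK : NumberField.discr K = (D : ℤ)) {C η a c : ℝ} (hC : 0 < C)
    (hLone : ∀ D : ℕ, IsFund D → Lone D ≤ C * (1 + Real.log D)) {X : ℕ}
    (hP : Par a η c X) (ha : 1 < a) (hη : 0 < η) (hc1 : 1 ≤ c)
    (hc : Cst η C X) (hXD : X < D) (hDX : D ≤ 2 * X) {κ : ℝ} (hκ0 : 0 ≤ κ) (hκ : κ ≤ a - 1)
    (Q : Finset ℕ) (hQ : Q ⊆ PX a X) (hσ : (el X) ^ (a - κ) / (4 * c) ≤ Q.card)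
    (I : ℕ → nonZeroDivisors (Ideal (𝓞 K)))
    (hI : ∀ p ∈ Q, Ideal.absNorm (I p : Ideal (𝓞 K)) = p) (R : Set (ClassGroup (𝓞 K)))
    (hR : ∀ s ∈ Q.powersetCard (kk a (1 / 2) X),
      (s.val.map fun p => ClassGroup.mk0 (I p)).prod ∈ R) :
    (Nat.card (ClassGroup (𝓞 K)) : ℝ) ≤ (X : ℝ) ^ ((κ + 1) / (2 * a) + 4 * η) * R.ncard := by
  have hX8 := hP.X8
  have hX0 := hP.posX
  have ha0 : 0 < a := by linarith
  set k := kk a (1 / 2) X with hk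
  have h := ineq hN0 hN3 h4 hKF h5b hN6 K D hD h2 hK Q
    (fun p hp => ⟨(PX_mem (hQ hp)).1, (PX_mem (hQ hp)).2.1⟩) I hI k R hR
  have h0 : OFF D (Q.powersetCard k) = 0 := by
    refine OFF_zero X D ((y1 a X) ^ k) (by omega) hXD _ (y1_half hP ha) ?_
    intro s hs
    have hs' : s ∈ (PX a X).powersetCard k := Finset.powersetCard_mono hQ hs
    exact ⟨(prod_le_y1 hs').1, (prod_le_y1 hs').2.2⟩
  rw [h0, add_zero] at h
  obtain ⟨hf0, hf⟩ := front hN3 K D hD h2 hK hC hLone (by omega) hc hDX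
  obtain ⟨hN, -⟩ := sizes hP ha hη hc1 hκ0 hκ (by norm_num : (0 : ℝ) ≤ 1 / 2) (by norm_num)
    (σ := Q.card) (π := 0) hσ (by simpa using Real.rpow_nonneg hP.el_pos.le _)
  rw [← hk] at hN
  have h8 := two_pow hP ha hη (by norm_num : (0 : ℝ) ≤ 1 / 2) (by norm_num) hc1
  rw [← hk] at h8
  have h28 : (2 : ℝ) ^ k ≤ (X : ℝ) ^ η := (pow_le_pow_left₀ (by norm_num) (by norm_num) k).trans h8
  set N : ℝ := ((Q.card.choose k : ℕ) : ℝ) with hNdef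
  have hNpos : 0 < N := lt_of_lt_of_le (Real.rpow_pos_of_pos hX0 _) hN
  have h5 : (Nat.card (ClassGroup (𝓞 K)) : ℝ) * N ≤
      (R.ncard : ℝ) * ((X : ℝ) ^ (1 / 2 + 2 * η) * (X : ℝ) ^ η) := by
    refine le_of_mul_le_mul_right ?_ hNpos
    calc (Nat.card (ClassGroup (𝓞 K)) : ℝ) * N * N = (Nat.card (ClassGroup (𝓞 K)) : ℝ) * N ^ 2 := by ring
      _ ≤ (R.ncard : ℝ) * (2 * √(D : ℝ) * Lone D * (2 ^ k * N)) := h
      _ ≤ (R.ncard : ℝ) * ((X : ℝ) ^ (1 / 2 + 2 * η) * ((X : ℝ) ^ η * N)) := by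
          apply mul_le_mul_of_nonneg_left _ (Nat.cast_nonneg _)
          apply mul_le_mul hf _ (by positivity) (by positivity)
          gcongr
      _ = _ := by ring
  have h6 : (Nat.card (ClassGroup (𝓞 K)) : ℝ) * (X : ℝ) ^ (1 / 2 * (a - κ - 1) / a - η) ≤
      (R.ncard : ℝ) * ((X : ℝ) ^ (1 / 2 + 2 * η) * (X : ℝ) ^ η) :=
    (mul_le_mul_of_nonneg_left hN (Nat.cast_nonneg _)).trans h5
  have hpos : 0 < (X : ℝ) ^ (1 / 2 * (a - κ - 1) / a - η) := Real.rpow_pos_of_pos hX0 _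
  refine le_of_mul_le_mul_right (h6.trans (le_of_eq ?_)) hpos
  have e9 : (X : ℝ) ^ (1 / 2 + 2 * η) * (X : ℝ) ^ η =
      (X : ℝ) ^ ((κ + 1) / (2 * a) + 4 * η) * (X : ℝ) ^ (1 / 2 * (a - κ - 1) / a - η) := by
    rw [← Real.rpow_add hX0, ← Real.rpow_add hX0]
    congr 1
    field_simp
    ring
  rw [e9]
  ring

/-- the bound for the discriminants with few near collisions -/
theorem index_almost (hN0 : P_N0) (hN3 : P_N3) (h4 : P_N4) (hKF : P_KF)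
    (h5b : P_N5b) (hN6 : P_N6) (K : Type) [Field K] [NumberField K] (D : ℕ) (hD : IsFund D)
    (h2 : Module.finrank ℚ K = 2) (hK : NumberField.discr K = (D : ℤ)) {C η a c : ℝ} (hC : 0 < C)
    (hLone : ∀ D : ℕ, IsFund D → Lone D ≤ C * (1 + Real.log D)) {X : ℕ}
    (hP : Par a η c X) (ha : 1 < a) (hη : 0 < η) (hc1 : 1 ≤ c)
    (hc : Cst η C X) (hDX : D ≤ 2 * X) {κ : ℝ} (hκ0 : 0 ≤ κ) (hκ : κ ≤ a - 1)
    (hκa : 1 ≤ a / 2 + κ)
    (hoff : ∀ k : ℕ, (y1 a X) ^ k ≤ X → (k : ℝ) * (a * la X) ≤ el X →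
      OFF D ((PX a X).powersetCard k) ≤
        (X : ℝ) ^ η * ((((PX a X).powersetCard k).card : ℝ) ^ 2 / √(X : ℝ)))
    (Q : Finset ℕ) (hQ : Q ⊆ PX a X) (hσ : (el X) ^ (a - κ) / (4 * c) ≤ Q.card)
    (I : ℕ → nonZeroDivisors (Ideal (𝓞 K)))
    (hI : ∀ p ∈ Q, Ideal.absNorm (I p : Ideal (𝓞 K)) = p) (R : Set (ClassGroup (𝓞 K)))
    (hR : ∀ s ∈ Q.powersetCard (kk a (a / (2 * (a + κ - 1))) X),
      (s.val.map fun p => ClassGroup.mk0 (I p)).prod ∈ R) :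
    (Nat.card (ClassGroup (𝓞 K)) : ℝ) ≤ (X : ℝ) ^ (κ / (a + κ - 1) + 6 * η) * R.ncard := by
  have hX8 := hP.X8
  have hX0 := hP.posX
  have ha0 : 0 < a := by linarith
  have hden : 0 < a + κ - 1 := by linarith
  obtain ⟨u, hu⟩ : ∃ u : ℝ, u = a / (2 * (a + κ - 1)) := ⟨_, rfl⟩
  rw [← hu] at hR
  have hu0 : 0 ≤ u := by rw [hu]; positivity
  have hu1 : u ≤ 1 := by
    rw [hu, div_le_one (by positivity)]
    linarith
  set k := kk a u X with hk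
  have h := ineq hN0 hN3 h4 hKF h5b hN6 K D hD h2 hK Q
    (fun p hp => ⟨(PX_mem (hQ hp)).1, (PX_mem (hQ hp)).2.1⟩) I hI k R hR
  have hXr : (1 : ℝ) ≤ X := by exact_mod_cast (by omega : 1 ≤ X)
  have hsX : 0 < √(X : ℝ) := Real.sqrt_pos.2 hX0
  have hkl : (k : ℝ) * (a * la X) ≤ el X := by
    have h1 := kk_up hP ha hu0
    have h3 : u * el X ≤ 1 * el X := mul_le_mul_of_nonneg_right hu1 hP.el_pos.le
    rw [hk]
    linarith
  have hO := hoff k (y1_le_X hP ha hu0 hu1) hkl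
  rw [Finset.card_powersetCard] at hO
  have hmono : OFF D (Q.powersetCard k) ≤ OFF D ((PX a X).powersetCard k) :=
    OFF_mono D (Finset.powersetCard_mono hQ)
  obtain ⟨hf0, hf⟩ := front hN3 K D hD h2 hK hC hLone (by omega) hc hDX
  obtain ⟨hN, hM⟩ := sizes hP ha hη hc1 hκ0 hκ hu0 hu1
    (σ := Q.card) (π := (PX a X).card) hσ (PX_card hP)
  rw [← hk] at hN hM
  have h8 := two_pow hP ha hη hu0 hu1 hc1
  rw [← hk] at h8
  have h28 : (2 : ℝ) ^ k ≤ (X : ℝ) ^ η := (pow_le_pow_left₀ (by norm_num) (by norm_num) k).trans h8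
  set N : ℝ := ((Q.card.choose k : ℕ) : ℝ) with hNdef
  set M : ℝ := (((PX a X).card.choose k : ℕ) : ℝ) with hMdef
  have hNpos : 0 < N := lt_of_lt_of_le (Real.rpow_pos_of_pos hX0 _) hN
  obtain ⟨E, hE⟩ : ∃ E : ℝ, E = κ / (a + κ - 1) := ⟨_, rfl⟩
  have e1 : u * (a - κ - 1) / a = 1 / 2 - E := by
    rw [hu, hE]
    field_simp
    ring
  have e2 : u * κ / a = E / 2 := by
    rw [hu, hE]
    field_simp
  rw [e1] at hN
  rw [e2] at hM
  have hXη : 0 < (X : ℝ) ^ η := Real.rpow_pos_of_pos hX0 _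
  -- M ^ 2 / √X
  have hM2 : M ^ 2 / √(X : ℝ) ≤ N ^ 2 * (X : ℝ) ^ (E + 2 * η - 1 / 2) := by
    rw [div_le_iff₀ hsX]
    have hM0 : 0 ≤ M := Nat.cast_nonneg _
    calc M ^ 2 ≤ (N * (X : ℝ) ^ (E / 2 + η)) ^ 2 := pow_le_pow_left₀ hM0 hM 2
      _ = N ^ 2 * ((X : ℝ) ^ (E / 2 + η) * (X : ℝ) ^ (E / 2 + η)) := by ring
      _ = N ^ 2 * ((X : ℝ) ^ (E + 2 * η - 1 / 2) * (X : ℝ) ^ (1 / 2 : ℝ)) := by
          rw [← Real.rpow_add hX0, ← Real.rpow_add hX0]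
          congr 2
          ring
      _ = _ := by rw [Real.sqrt_eq_rpow]; ring
  have hN1 : N ≤ N ^ 2 * (X : ℝ) ^ (E + η - 1 / 2) := by
    have h7 : 1 ≤ N * (X : ℝ) ^ (E + η - 1 / 2) := by
      calc (1 : ℝ) = (X : ℝ) ^ (1 / 2 - E - η) * (X : ℝ) ^ (E + η - 1 / 2) := by
            rw [← Real.rpow_add hX0]
            rw [show (1 / 2 - E - η + (E + η - 1 / 2) : ℝ) = 0 by ring, Real.rpow_zero]
        _ ≤ _ := by gcongr
    calc N = N * 1 := (mul_one _).symm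
      _ ≤ N * (N * (X : ℝ) ^ (E + η - 1 / 2)) := by gcongr
      _ = _ := by ring
  have hin : 2 ^ k * N + OFF D (Q.powersetCard k) ≤
      N ^ 2 * (2 * (X : ℝ) ^ (E + 3 * η - 1 / 2)) := by
    have g1 : 2 ^ k * N ≤ N ^ 2 * (X : ℝ) ^ (E + 3 * η - 1 / 2) := by
      calc 2 ^ k * N ≤ (X : ℝ) ^ η * (N ^ 2 * (X : ℝ) ^ (E + η - 1 / 2)) := by gcongr
        _ = N ^ 2 * ((X : ℝ) ^ η * (X : ℝ) ^ (E + η - 1 / 2)) := by ring
        _ = N ^ 2 * (X : ℝ) ^ (η + (E + η - 1 / 2)) := by rw [Real.rpow_add hX0]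
        _ ≤ _ := by
            apply mul_le_mul_of_nonneg_left _ (by positivity)
            exact Real.rpow_le_rpow_of_exponent_le hXr (by linarith)
    have g2 : OFF D (Q.powersetCard k) ≤ N ^ 2 * (X : ℝ) ^ (E + 3 * η - 1 / 2) := by
      calc OFF D (Q.powersetCard k) ≤ (X : ℝ) ^ η * (M ^ 2 / √(X : ℝ)) := hmono.trans hO
        _ ≤ (X : ℝ) ^ η * (N ^ 2 * (X : ℝ) ^ (E + 2 * η - 1 / 2)) := by gcongr
        _ = N ^ 2 * ((X : ℝ) ^ η * (X : ℝ) ^ (E + 2 * η - 1 / 2)) := by ring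
        _ = N ^ 2 * (X : ℝ) ^ (E + 3 * η - 1 / 2) := by
            rw [← Real.rpow_add hX0]
            congr 2
            ring
    linarith
  have hN2 : 0 < N ^ 2 := by positivity
  refine le_of_mul_le_mul_right ?_ hN2
  calc (Nat.card (ClassGroup (𝓞 K)) : ℝ) * N ^ 2
      ≤ (R.ncard : ℝ) * (2 * √(D : ℝ) * Lone D * (2 ^ k * N + OFF D (Q.powersetCard k))) := h
    _ ≤ (R.ncard : ℝ) * ((X : ℝ) ^ (1 / 2 + 2 * η) * (N ^ 2 * (2 * (X : ℝ) ^ (E + 3 * η - 1 / 2)))) := by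
        apply mul_le_mul_of_nonneg_left _ (Nat.cast_nonneg _)
        apply mul_le_mul hf hin _ (by positivity)
        exact add_nonneg (by positivity) (OFF_nonneg _ _)
    _ = 2 * ((X : ℝ) ^ (1 / 2 + 2 * η) * (X : ℝ) ^ (E + 3 * η - 1 / 2)) * ((R.ncard : ℝ) * N ^ 2) := by
        ring
    _ ≤ (X : ℝ) ^ η * ((X : ℝ) ^ (1 / 2 + 2 * η) * (X : ℝ) ^ (E + 3 * η - 1 / 2)) *
        ((R.ncard : ℝ) * N ^ 2) := by
        have := hc.four
        gcongr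
        linarith
    _ = (X : ℝ) ^ (κ / (a + κ - 1) + 6 * η) * ((R.ncard : ℝ) * N ^ 2) := by
        rw [← Real.rpow_add hX0, ← Real.rpow_add hX0, ← hE]
        congr 2
        ring
    _ = _ := by ring

end Pool.Agent.U880.TC
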