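import Pool.Agent.U880.TC.Fin

set_option autoImplicit false

/-! The two theorems on radicands. -/

namespace Pool.Agent.U880.TC

open Finset Filter NumberField Pool.Agent.H38R2.CG Pool.Agent.H38R2.CG2
open Pool.Agent.R345.IX (Qz_two floor_two Dof isFund_Dof dyadic Lone_le)
open scoped Classical

/-- all the number field input -/
structure Inp : Prop where
  N0 : P_N0
  N0d : P_N0d
  N2 : P_N2
  N3 : P_N3
  N4 : P_N4
  KF : P_KF
  N5b : P_N5b
  N6 : P_N6
  N3a : P_N3a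

theorem inp : Inp := by
  have h_P_N0 : P_N0 := T_N0
  have h_P_SPL : P_SPL := T_SPL h_P_N0
  have h_P_N2 : P_N2 := T_N2 h_P_SPL
  have h_P_KR : P_KR := T_KR
  have h_P_PV : P_PV := T_PV
  have h_P_N3a : P_N3a := T_N3a h_P_KR h_P_PV
  have h_P_N3b : P_N3b := T_N3b h_P_KR h_P_PV h_P_N3a
  have h_P_N3 : P_N3 := T_N3 h_P_N2 h_P_N3b
  have h_P_N4 : P_N4 := T_N4 T_N4a T_N4b
  have h_P_KF : P_KF := T_KF
  exact ⟨h_P_N0, T_N0d, h_P_N2, h_P_N3, h_P_N4, h_P_KF, T_N5b h_P_KF h_P_N4, T_N6 h_P_KF, h_P_N3a⟩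

theorem discr_Dof {K : Type} [Field K] [NumberField K] {d : ℕ} (hd : 1 < d) (hsq : Squarefree d)
    (h2 : Module.finrank ℚ K = 2) (hx : ∃ x : K, x ^ 2 = (d : K)) :
    NumberField.discr K = (Dof d : ℤ) := by
  rw [inp.N0d K d hd hsq h2 hx]
  unfold Dof
  split_ifs <;> push_cast <;> rfl

theorem Dof_le (d : ℕ) : d ≤ Dof d ∧ Dof d ≤ 4 * d := by
  unfold Dof
  split_ifs <;> omega

/-- every set `S` of at least `(log d) ^ (a - κ)` prime ideals of degree one and norm at most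
`(log d) ^ a` reaches at least `h / d ^ E` classes by products of a fixed number of factors -/
def RB (a κ E : ℝ) (d : ℕ) : Prop :=
  ∀ (K : Type) [Field K] [NumberField K], Module.finrank ℚ K = 2 → (∃ x : K, x ^ 2 = (d : K)) →
    ∀ S : Set (nonZeroDivisors (Ideal (𝓞 K))), S ⊆ Tiny K ((Real.log d) ^ a) →
    (Real.log d) ^ (a - κ) ≤ S.ncard →
    ∃ k : ℕ, (k : ℝ) ≤ Real.log d / Real.log (Real.log d) ∧
      (Nat.card (ClassGroup (𝓞 K)) : ℝ) ≤ (d : ℝ) ^ E * (Prods S k).ncard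

/-- every radicand -/
theorem all_d (a : ℝ) (ha : 1 < a) (ε : ℝ) (hε : 0 < ε) : ∃ d0 : ℕ, ∀ d ≥ d0, Squarefree d →
    ∀ κ : ℝ, 0 ≤ κ → κ ≤ a - 1 → RB a κ ((κ + 1) / (2 * a) + ε) d := by
  obtain ⟨C, hC, hLone⟩ := Lone_le inp.N3a
  obtain ⟨η, hη⟩ : ∃ η : ℝ, η = min (ε / 8) (1 / 8) := ⟨_, rfl⟩
  have hη0 : 0 < η := by rw [hη]; positivity
  have hη1 : η ≤ ε / 8 := by rw [hη]; exact min_le_left _ _
  have hη2 : η ≤ 1 / 8 := by rw [hη]; exact min_le_right _ _
  have ha0 : 0 < a := by linarith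
  have e1 := par_ev a η (2 ^ a) ha hη0
  have e2 := ERRh.ev_log (η / 2) (by positivity)
  have e3 := ERRh.ev_const (η / 2) (by positivity) (2 * C)
  have e4 := ERRh.ev_const η hη0 4
  obtain ⟨X0, hX0⟩ := Filter.eventually_atTop.1 (e1.and (e2.and (e3.and e4)))
  obtain ⟨d1, hd1⟩ := Filter.eventually_atTop.1 ((ERRh.ev_const (ε / 2) (by positivity) 64).and
    (ERRh.ev_const (a - 1) (by linarith) 8))
  refine ⟨max (X0 + 2) (max d1 3), fun d hd hsq κ hκ0 hκ K _ _ h2 hx S hS hn => ?_⟩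
  have hdX : X0 + 2 ≤ d := le_trans (le_max_left _ _) hd
  have hdd1 : d1 ≤ d := le_trans (le_trans (le_max_left _ _) (le_max_right _ _)) hd
  have hd3 : 3 ≤ d := le_trans (le_trans (le_max_right _ _) (le_max_right _ _)) hd
  obtain ⟨g1, g2⟩ := Dof_le d
  obtain ⟨X, hX⟩ : ∃ X : ℕ, X = Dof d - 1 := ⟨_, rfl⟩
  obtain ⟨hP, hl, hk, hf⟩ := hX0 X (by omega)
  have hXpos := hP.posX
  have hXr : (1 : ℝ) ≤ X := by have := hP.X8; exact_mod_cast (by omega : 1 ≤ X)
  have hlogX : 0 ≤ Real.log X := Real.log_natCast_nonneg X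
  have hcst : Cst η C X := by
    refine ⟨?_, hf⟩
    calc C * (2 + Real.log X) ≤ (2 * C) * (1 + Real.log X) := by nlinarith
      _ ≤ (X : ℝ) ^ (η / 2) * (X : ℝ) ^ (η / 2) := by gcongr
      _ = (X : ℝ) ^ η := by rw [← Real.rpow_add hXpos]; congr 1; ring
  obtain ⟨k, hk1, hk2⟩ := (both inp.N0 inp.N2 inp.N3 inp.N4 inp.KF inp.N5b inp.N6 K (Dof d)
    (isFund_Dof (by omega) hsq) h2 (discr_Dof (by omega) hsq h2 hx) hC hLone hP ha hη0 hcst
    (by omega) (by omega) hκ0 hκ (by omega) g1 (by omega) S hS hn).1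
  refine ⟨k, k_le hP ha hd3 (by omega) (by omega) (hd1 d hdd1).2 hk1, hk2.trans ?_⟩
  apply mul_le_mul_of_nonneg_right _ (Nat.cast_nonneg _)
  refine pow_trans (by have := hP.X8; omega) (by omega) (by positivity) ?_ (δ := ε / 2) ?_
    (hd1 d hdd1).1
  · have : (κ + 1) / (2 * a) ≤ 1 / 2 := by
      rw [div_le_div_iff₀ (by positivity) (by norm_num)]
      linarith
    linarith
  · linarith

/-- the property which holds for almost all radicands -/
def GoodT (a ε : ℝ) (d : ℕ) : Prop :=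
  ∀ κ : ℝ, 0 ≤ κ → κ ≤ a - 1 → 1 ≤ a / 2 + κ → RB a κ (κ / (a - 1 + κ) + ε) d

theorem almost (a : ℝ) (ha : 1 < a) (ε : ℝ) (hε : 0 < ε) : ∃ δ C : ℝ, 0 < δ ∧ 0 < C ∧
    ∀ X : ℕ, (((Finset.Icc 2 X).filter (fun d => Squarefree d ∧ ¬ GoodT a ε d)).card : ℝ) ≤
      C * (X : ℝ) ^ (1 - δ) := by
  obtain ⟨C, hC, hLone⟩ := Lone_le inp.N3a
  obtain ⟨η, hη⟩ : ∃ η : ℝ, η = min (ε / 12) (1 / 8) := ⟨_, rfl⟩
  have hη0 : 0 < η := by rw [hη]; positivity
  have hη1 : η ≤ ε / 12 := by rw [hη]; exact min_le_left _ _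
  have hη2 : η ≤ 1 / 8 := by rw [hη]; exact min_le_right _ _
  have ha0 : 0 < a := by linarith
  have e1 := par_ev a η (2 ^ a) ha hη0
  have e2 := ERRh.ev_log (η / 2) (by positivity)
  have e3 := ERRh.ev_const (η / 2) (by positivity) (2 * C)
  have e4 := ERRh.ev_const η hη0 4
  obtain ⟨X0, hX0⟩ := Filter.eventually_atTop.1 (e1.and (e2.and (e3.and e4)))
  obtain ⟨d1, hd1⟩ := Filter.eventually_atTop.1 ((ERRh.ev_const (ε / 2) (by positivity) 64).and
    (ERRh.ev_const (a - 1) (by linarith) 8))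
  obtain ⟨X1, hX1⟩ := count_badD a ha η hη0 (by linarith)
  -- a bad radicand gives a bad discriminant
  have key : ∀ d : ℕ, d1 ≤ d → 3 ≤ d → Squarefree d → ¬ GoodT a ε d → ∀ X : ℕ, X0 ≤ X →
      X < Dof d → Dof d ≤ 2 * X → X ≤ 4 * d → IsFund (Dof d) ∧ BadD a η X (Dof d) := by
    intro d hdd1 hd hsq hbad X hXX0 hXD hDX hX4
    refine ⟨isFund_Dof (by omega) hsq, ?_⟩
    by_contra hnb
    apply hbad
    intro κ hκ0 hκ hκa K _ _ h2 hx S hS hn
    obtain ⟨g1, g2⟩ := Dof_le d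
    obtain ⟨hP, hl, hk, hf⟩ := hX0 X hXX0
    have hXpos := hP.posX
    have hXr : (1 : ℝ) ≤ X := by have := hP.X8; exact_mod_cast (by omega : 1 ≤ X)
    have hlogX : 0 ≤ Real.log X := Real.log_natCast_nonneg X
    have hcst : Cst η C X := by
      refine ⟨?_, hf⟩
      calc C * (2 + Real.log X) ≤ (2 * C) * (1 + Real.log X) := by nlinarith
        _ ≤ (X : ℝ) ^ (η / 2) * (X : ℝ) ^ (η / 2) := by gcongr
        _ = (X : ℝ) ^ η := by rw [← Real.rpow_add hXpos]; congr 1; ring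
    obtain ⟨k, hk1, hk2⟩ := (both inp.N0 inp.N2 inp.N3 inp.N4 inp.KF inp.N5b inp.N6 K (Dof d)
      (isFund_Dof (by omega) hsq) h2 (discr_Dof (by omega) hsq h2 hx) hC hLone hP ha hη0 hcst
      hXD hDX hκ0 hκ (by omega) g1 hX4 S hS hn).2 hκa hnb
    have hE : κ / (a + κ - 1) ≤ 1 := by
      rw [div_le_one (by linarith)]
      linarith
    have hE0 : 0 ≤ κ / (a + κ - 1) := div_nonneg hκ0 (by linarith)
    have e5 : κ / (a - 1 + κ) = κ / (a + κ - 1) := by congr 1; ring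
    rw [e5]
    refine ⟨k, k_le hP ha hd hX4 (by omega) (hd1 d hdd1).2 hk1, hk2.trans ?_⟩
    apply mul_le_mul_of_nonneg_right _ (Nat.cast_nonneg _)
    exact pow_trans (by have := hP.X8; omega) (by omega) (by linarith) (by linarith)
      (δ := ε / 2) (by linarith) (hd1 d hdd1).1
  obtain ⟨C1, hC1, hfin⟩ := dyadic
    (fun S => (S.filter (fun d => Squarefree d ∧ ¬ GoodT a ε d)).card)
    (fun d => Squarefree d ∧ ¬ GoodT a ε d) (fun S => by congr) (η / 2) (by positivity)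
    (by linarith) (max (max X0 X1) (max d1 3)) (by
      intro Y hY
      have hY0 : X0 ≤ Y := le_trans (le_trans (le_max_left _ _) (le_max_left _ _)) hY
      have hY1 : X1 ≤ Y := le_trans (le_trans (le_max_right _ _) (le_max_left _ _)) hY
      have hY2 : d1 ≤ Y := le_trans (le_trans (le_max_left _ _) (le_max_right _ _)) hY
      have hY3 : 3 ≤ Y := le_trans (le_trans (le_max_right _ _) (le_max_right _ _)) hY
      have hYr : (0 : ℝ) < Y := by exact_mod_cast (by omega : 0 < Y)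
      set S := (Finset.Ioc Y (2 * Y)).filter (fun d => Squarefree d ∧ ¬ GoodT a ε d) with hS
      set A := (Finset.Ioc Y (2 * Y)).filter (fun D => IsFund D ∧ BadD a η Y D) with hA
      set B := (Finset.Ioc (4 * Y) (2 * (4 * Y))).filter
        (fun D => IsFund D ∧ BadD a η (4 * Y) D) with hB
      have hA' := hX1 Y hY1
      have hB' := hX1 (4 * Y) (by omega)
      have hinj : S.card ≤ (A ∪ B).card := by
        refine Finset.card_le_card_of_injOn Dof ?_ ?_
        · intro d hd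
          rw [Finset.mem_coe] at hd ⊢
          obtain ⟨h1, h2, h3⟩ := Finset.mem_filter.1 hd
          obtain ⟨h4, h5⟩ := Finset.mem_Ioc.1 h1
          rw [Finset.mem_union]
          by_cases h : d % 4 = 1
          · left
            have hDof : Dof d = d := by unfold Dof; rw [if_pos h]
            have hk := key d (by omega) (by omega) h2 h3 Y hY0 (by omega) (by omega) (by omega)
            rw [hA, Finset.mem_filter, Finset.mem_Ioc]
            exact ⟨by rw [hDof]; exact ⟨h4, h5⟩, hk⟩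
          · right
            have hDof : Dof d = 4 * d := by unfold Dof; rw [if_neg h]
            have hk := key d (by omega) (by omega) h2 h3 (4 * Y) (by omega) (by omega)
              (by omega) (by omega)
            rw [hB, Finset.mem_filter, Finset.mem_Ioc]
            exact ⟨by rw [hDof]; omega, hk⟩
        · intro d _ d' _ hdd
          unfold Dof at hdd
          split_ifs at hdd <;> omega
      have h1 : (S.card : ℝ) ≤ A.card + B.card := by
        exact_mod_cast hinj.trans (Finset.card_union_le _ _)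
      have h4Y : (((4 * Y : ℕ) : ℝ)) ^ (1 - η / 2) ≤ 4 * (Y : ℝ) ^ (1 - η / 2) := by
        push_cast
        rw [Real.mul_rpow (by norm_num) hYr.le]
        apply mul_le_mul_of_nonneg_right _ (by positivity)
        calc (4 : ℝ) ^ (1 - η / 2) ≤ (4 : ℝ) ^ (1 : ℝ) :=
              Real.rpow_le_rpow_of_exponent_le (by norm_num) (by linarith)
          _ = 4 := Real.rpow_one 4
      show ((S.card : ℕ) : ℝ) ≤ 5 * (Y : ℝ) ^ (1 - η / 2)
      linarith)
  exact ⟨η / 2, C1, by positivity, hC1, hfin⟩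

/-! ## consequences -/

/-- products of `k` elements of a coset lie in one coset -/
theorem prods_coset {K : Type} [Field K] [NumberField K] (S : Set (nonZeroDivisors (Ideal (𝓞 K))))
    (k : ℕ) (H : Subgroup (ClassGroup (𝓞 K))) (g : ClassGroup (𝓞 K))
    (hS : ∀ P ∈ S, ClassGroup.mk0 P * g⁻¹ ∈ H) : ((Prods S k).ncard : ℝ) ≤ Nat.card H := by
  have h1 : Prods S k ⊆ (fun C => C * g ^ k) '' (H : Set (ClassGroup (𝓞 K))) := by
    rintro C ⟨L, hL1, hL2, rfl⟩
    refine ⟨(L.map fun P => ClassGroup.mk0 P).prod * (g ^ k)⁻¹, ?_, by simp⟩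
    have h2 : (L.map fun P => ClassGroup.mk0 P).prod * (g ^ k)⁻¹ =
        (L.map fun P => ClassGroup.mk0 P * g⁻¹).prod := by
      rw [Multiset.prod_map_mul, Multiset.map_const', Multiset.prod_replicate, hL2, inv_pow]
    show (L.map fun P => ClassGroup.mk0 P).prod * (g ^ k)⁻¹ ∈ H
    rw [h2]
    refine Subgroup.multiset_prod_mem _ _ ?_
    intro c hc
    obtain ⟨P, hP, rfl⟩ := Multiset.mem_map.1 hc
    exact hS P (hL1 P hP)
  have h2 : (Prods S k).ncard ≤ Nat.card H := by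
    refine (Set.ncard_le_ncard h1 (Set.toFinite _)).trans ?_
    refine (Set.ncard_image_le (Set.toFinite _)).trans ?_
    exact le_of_eq rfl
  exact_mod_cast h2

theorem RB.index {a κ E : ℝ} {d : ℕ} (h : RB a κ E d) (K : Type) [Field K] [NumberField K]
    (h2 : Module.finrank ℚ K = 2) (hx : ∃ x : K, x ^ 2 = (d : K))
    (H : Subgroup (ClassGroup (𝓞 K))) (g : ClassGroup (𝓞 K))
    (S : Set (nonZeroDivisors (Ideal (𝓞 K)))) (hS : S ⊆ Tiny K ((Real.log d) ^ a))
    (hSg : ∀ P ∈ S, ClassGroup.mk0 P * g⁻¹ ∈ H)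
    (hn : (Real.log d) ^ (a - κ) ≤ S.ncard) : (H.index : ℝ) ≤ (d : ℝ) ^ E := by
  obtain ⟨k, -, hk⟩ := h K h2 hx S hS hn
  have h3 := prods_coset S k H g hSg
  have hH : (0 : ℝ) < Nat.card H := by exact_mod_cast Nat.card_pos
  have hidx : (H.index : ℝ) * Nat.card H = Nat.card (ClassGroup (𝓞 K)) := by
    exact_mod_cast Subgroup.index_mul_card H
  have hd0 : (0 : ℝ) ≤ (d : ℝ) ^ E := Real.rpow_nonneg (Nat.cast_nonneg _) _
  refine le_of_mul_le_mul_right ?_ hH
  rw [hidx]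
  exact hk.trans (mul_le_mul_of_nonneg_left h3 hd0)

end Pool.Agent.U880.TC
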