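import Pool.Agent.U880.TC.Count
import Pool.Agent.R345.IXEnd

set_option autoImplicit false

/-! The exceptional discriminants and the main theorem. -/

namespace Pool.Agent.U880.TC

open Finset Filter NumberField Pool.Agent.H38R2.CG Pool.Agent.H38R2.CG2
open Pool.Agent.R345.IX (Qz_two floor_two Dof isFund_Dof dyadic Lone_le)
open scoped Classical

/-- the discriminants with many near collisions -/
def BadD (a η : ℝ) (X D : ℕ) : Prop := ∃ k : ℕ, (y1 a X) ^ k ≤ X ∧ (k : ℝ) * (a * la X) ≤ el X ∧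
  (X : ℝ) ^ η * ((((PX a X).powersetCard k).card : ℝ) ^ 2 / √(X : ℝ)) <
    OFF D ((PX a X).powersetCard k)

theorem count_badD (a : ℝ) (ha : 1 < a) (η : ℝ) (hη : 0 < η) (hη1 : η ≤ 1) : ∃ X0 : ℕ, ∀ X ≥ X0,
    (((Finset.Ioc X (2 * X)).filter (fun D => IsFund D ∧ BadD a η X D)).card : ℝ) ≤
      (X : ℝ) ^ (1 - η / 2) := by
  rw [← Filter.eventually_atTop]
  have hpar := par_ev a (η / 8) 1 ha (by positivity)
  have hlog := ERRh.ev_log (η / 16) (by positivity)
  have hcst := ERRh.ev_const (η / 16) (by positivity) (16 * 3072 * 2)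
  filter_upwards [hpar, hlog, hcst] with X hP hl hk
  have hX0 := hP.posX
  have hX8 := hP.X8
  have hXr : (1 : ℝ) ≤ X := by exact_mod_cast (by omega : 1 ≤ X)
  have hlogX : 0 ≤ Real.log X := Real.log_natCast_nonneg X
  have hel := hP.el_pos
  let Bd : ℕ → ℕ → Finset ℕ := fun r k => (DD 2 r X 1).filter (fun D =>
    (y1 a X) ^ k ≤ X ∧ (k : ℝ) * (a * la X) ≤ el X ∧
    (X : ℝ) ^ η * ((((PX a X).powersetCard k).card : ℝ) ^ 2 / √(X : ℝ)) <
      OFF D ((PX a X).powersetCard k))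
  have hBd : ∀ r < Qz 2, ∀ k, ((Bd r k).card : ℝ) ≤
      3072 * (1 + Real.log X) * (X : ℝ) ^ (1 - 7 * η / 8) := by
    intro r hr k
    by_cases hcond : (y1 a X) ^ k ≤ X ∧ (k : ℝ) * (a * la X) ≤ el X
    · have h8 := eight_pow hP ha (by positivity) le_rfl hcond.2
      rcases Nat.eq_zero_or_pos ((PX a X).powersetCard k).card with hc | hc
      · have : Bd r k = ∅ := by
          apply Finset.filter_eq_empty_iff.2
          rintro D - ⟨-, -, h⟩
          rw [hc] at h
          rw [Finset.card_eq_zero] at hc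
          rw [hc] at h
          unfold OFF at h
          simp at h
        rw [this, Finset.card_empty, Nat.cast_zero]
        positivity
      have h1 := off_card r X k hr (by omega) ((PX a X).powersetCard k) (by
        intro s hs
        obtain ⟨g1, g2, g3⟩ := prod_le_y1 hs
        exact ⟨g1, g2, g3.trans hcond.1⟩) ((X : ℝ) ^ η) (Real.rpow_pos_of_pos hX0 _) hc
      have h2 : (Bd r k).card ≤ ((DD 2 r X 1).filter (fun D => (X : ℝ) ^ η *
          ((((PX a X).powersetCard k).card : ℝ) ^ 2 / √(X : ℝ)) <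
          OFF D ((PX a X).powersetCard k))).card := by
        apply Finset.card_le_card
        intro D hD
        rw [Finset.mem_filter] at hD ⊢
        exact ⟨hD.1, hD.2.2.2⟩
      have h3 : ((Bd r k).card : ℝ) ≤ 3072 * 8 ^ k * (1 + Real.log X) * X / (X : ℝ) ^ η := by
        refine le_trans ?_ h1
        exact_mod_cast h2
      refine h3.trans ?_
      rw [div_le_iff₀ (Real.rpow_pos_of_pos hX0 _)]
      calc 3072 * 8 ^ k * (1 + Real.log X) * X
          ≤ 3072 * (X : ℝ) ^ (η / 8) * (1 + Real.log X) * X := by gcongr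
        _ = 3072 * (1 + Real.log X) * ((X : ℝ) ^ (η / 8) * (X : ℝ) ^ (1 : ℝ)) := by
            rw [Real.rpow_one]; ring
        _ = 3072 * (1 + Real.log X) * ((X : ℝ) ^ (1 - 7 * η / 8) * (X : ℝ) ^ η) := by
            rw [← Real.rpow_add hX0, ← Real.rpow_add hX0]
            congr 2
            ring
        _ = _ := by ring
    · have : Bd r k = ∅ := by
        apply Finset.filter_eq_empty_iff.2
        rintro D - ⟨h1, h2, -⟩
        exact hcond ⟨h1, h2⟩
      rw [this, Finset.card_empty, Nat.cast_zero]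
      positivity
  have hcover : ((Finset.Ioc X (2 * X)).filter (fun D => IsFund D ∧ BadD a η X D)) ⊆
      (Finset.range 16).biUnion (fun r => (Finset.range (⌊el X⌋₊ + 1)).biUnion (fun k => Bd r k)) := by
    intro D hD
    obtain ⟨hD1, hD2, k, hk1, hk2, hk3⟩ := Finset.mem_filter.1 hD
    rw [Finset.mem_biUnion]
    refine ⟨D % 16, Finset.mem_range.2 (Nat.mod_lt _ (by norm_num)), ?_⟩
    rw [Finset.mem_biUnion]
    refine ⟨k, ?_, ?_⟩
    · rw [Finset.mem_range]
      have h1 : (k : ℝ) ≤ el X := by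
        have hk0 : (0 : ℝ) ≤ k := Nat.cast_nonneg _
        have hla := hP.la1
        have : (k : ℝ) * 1 ≤ (k : ℝ) * (a * la X) := by
          apply mul_le_mul_of_nonneg_left _ hk0
          nlinarith
        linarith
      have := Nat.le_floor h1
      omega
    · rw [Finset.mem_filter]
      refine ⟨?_, hk1, hk2, hk3⟩
      unfold DD
      rw [Finset.mem_filter, floor_two, Qz_two]
      exact ⟨hD1, rfl⟩
  have hfin : ((((Finset.range 16).biUnion (fun r => (Finset.range (⌊el X⌋₊ + 1)).biUnion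
      (fun k => Bd r k))).card : ℕ) : ℝ) ≤
      16 * ((el X + 1) * (3072 * (1 + Real.log X) * (X : ℝ) ^ (1 - 7 * η / 8))) := by
    have h1 : (((Finset.range 16).biUnion (fun r => (Finset.range (⌊el X⌋₊ + 1)).biUnion
        (fun k => Bd r k))).card : ℝ) ≤ ∑ r ∈ Finset.range 16, (((Finset.range (⌊el X⌋₊ + 1)).biUnion
        (fun k => Bd r k)).card : ℝ) := by
      exact_mod_cast Finset.card_biUnion_le
    refine h1.trans ?_
    have h2 : ∀ r ∈ Finset.range 16, (((Finset.range (⌊el X⌋₊ + 1)).biUnion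
        (fun k => Bd r k)).card : ℝ) ≤
        (el X + 1) * (3072 * (1 + Real.log X) * (X : ℝ) ^ (1 - 7 * η / 8)) := by
      intro r hr
      have hr' : r < Qz 2 := by rw [Qz_two]; exact Finset.mem_range.1 hr
      have h3 : (((Finset.range (⌊el X⌋₊ + 1)).biUnion (fun k => Bd r k)).card : ℝ) ≤
          ∑ k ∈ Finset.range (⌊el X⌋₊ + 1), ((Bd r k).card : ℝ) := by
        exact_mod_cast Finset.card_biUnion_le
      refine h3.trans ((Finset.sum_le_sum fun k _ => hBd r hr' k).trans ?_)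
      rw [Finset.sum_const, Finset.card_range, nsmul_eq_mul]
      apply mul_le_mul_of_nonneg_right _ (by positivity)
      push_cast
      have := Nat.floor_le hel.le
      linarith
    refine (Finset.sum_le_sum h2).trans ?_
    rw [Finset.sum_const, Finset.card_range, nsmul_eq_mul]
    push_cast
    exact le_rfl
  have hcard : (((Finset.Ioc X (2 * X)).filter (fun D => IsFund D ∧ BadD a η X D)).card : ℝ) ≤ _ :=
    le_trans (by exact_mod_cast Finset.card_le_card hcover) hfin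
  refine hcard.trans ?_
  have hel2 : el X + 1 ≤ 2 * (1 + Real.log X) := by
    rw [hP.el_eq]
    have := Real.log_two_lt_d9
    linarith
  have hXp : (0 : ℝ) < (X : ℝ) ^ (1 - 7 * η / 8) := Real.rpow_pos_of_pos hX0 _
  calc 16 * ((el X + 1) * (3072 * (1 + Real.log X) * (X : ℝ) ^ (1 - 7 * η / 8)))
      ≤ 16 * ((2 * (1 + Real.log X)) * (3072 * (1 + Real.log X) * (X : ℝ) ^ (1 - 7 * η / 8))) := by
        gcongr
    _ = (16 * 3072 * 2) * (1 + Real.log X) * (1 + Real.log X) * (X : ℝ) ^ (1 - 7 * η / 8) := by ring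
    _ ≤ (X : ℝ) ^ (η / 16) * (X : ℝ) ^ (η / 16) * (X : ℝ) ^ (η / 16) *
        (X : ℝ) ^ (1 - 7 * η / 8) := by gcongr
    _ = (X : ℝ) ^ (1 - 7 * η / 8 + 3 * η / 16) := by
        rw [← Real.rpow_add hX0, ← Real.rpow_add hX0, ← Real.rpow_add hX0]
        congr 1
        ring
    _ ≤ _ := Real.rpow_le_rpow_of_exponent_le hXr (by linarith)

/-- the bounds in terms of `X` -/
theorem both (hN0 : P_N0) (hN2 : P_N2) (hN3 : P_N3) (h4 : P_N4) (hKF : P_KF)
    (h5b : P_N5b) (hN6 : P_N6) (K : Type) [Field K] [NumberField K] (D : ℕ) (hD : IsFund D)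
    (h2 : Module.finrank ℚ K = 2) (hK : NumberField.discr K = (D : ℤ)) {C η a : ℝ} (hC : 0 < C)
    (hLone : ∀ D : ℕ, IsFund D → Lone D ≤ C * (1 + Real.log D)) {X : ℕ}
    (hP : Par a η (2 ^ a) X) (ha : 1 < a) (hη : 0 < η)
    (hc : Cst η C X) (hXD : X < D) (hDX : D ≤ 2 * X) {κ : ℝ} (hκ0 : 0 ≤ κ) (hκ : κ ≤ a - 1)
    {d : ℕ} (hd1 : 1 ≤ d) (hdD : d ≤ D) (hXd : X ≤ 4 * d)
    (S : Set (nonZeroDivisors (Ideal (𝓞 K)))) (hS : S ⊆ Tiny K ((Real.log d) ^ a))
    (hn : (Real.log d) ^ (a - κ) ≤ S.ncard) :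
    (∃ k : ℕ, (k : ℝ) * (a * la X) ≤ el X ∧ (Nat.card (ClassGroup (𝓞 K)) : ℝ) ≤
      (X : ℝ) ^ ((κ + 1) / (2 * a) + 4 * η) * (Prods S k).ncard) ∧
    (1 ≤ a / 2 + κ → ¬ BadD a η X D → ∃ k : ℕ, (k : ℝ) * (a * la X) ≤ el X ∧
      (Nat.card (ClassGroup (𝓞 K)) : ℝ) ≤
        (X : ℝ) ^ (κ / (a + κ - 1) + 6 * η) * (Prods S k).ncard) := by
  have hX0 := hP.posX
  have hX8 := hP.X8
  have hXr : (1 : ℝ) ≤ X := by exact_mod_cast (by omega : 1 ≤ X)
  have hdr : (1 : ℝ) ≤ d := by exact_mod_cast hd1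
  have hlogd0 : 0 ≤ Real.log d := Real.log_nonneg hdr
  have hlogd : Real.log d ≤ el X := by
    unfold el
    apply Real.log_le_log (by linarith)
    exact_mod_cast hdD.trans hDX
  have ha0 : 0 < a := by linarith
  have hB : (Real.log d) ^ a ≤ (el X) ^ a := Real.rpow_le_rpow hlogd0 hlogd ha0.le
  obtain ⟨Q, I, hQ, hI, hR, hcard⟩ := choose_Q hN2 K D hD h2 hK a X ((Real.log d) ^ a) hB S hS
  have hσ := enough hP rfl ha hκ0 hκ (d := d) (by exact_mod_cast hXd) hn hcard
  have hc1 : (1 : ℝ) ≤ 2 ^ a := Real.one_le_rpow (by norm_num) ha0.le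
  have hu : ∀ u : ℝ, 0 ≤ u → u ≤ 1 → (kk a u X : ℝ) * (a * la X) ≤ el X := by
    intro u hu0 hu1
    have h1 := kk_up hP ha hu0
    have h3 : u * el X ≤ 1 * el X := mul_le_mul_of_nonneg_right hu1 hP.el_pos.le
    linarith
  refine ⟨⟨kk a (1 / 2) X, hu _ (by norm_num) (by norm_num),
    index_all hN0 hN3 h4 hKF h5b hN6 K D hD h2 hK hC hLone hP ha hη hc1 hc hXD hDX hκ0 hκ
    Q hQ hσ I hI _ (hR _)⟩, fun hκa hbad => ?_⟩
  have hden : 0 < a + κ - 1 := by linarith
  refine ⟨kk a (a / (2 * (a + κ - 1))) X, hu _ (by positivity) ?_, ?_⟩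
  · rw [div_le_one (by positivity)]
    linarith
  refine index_almost hN0 hN3 h4 hKF h5b hN6 K D hD h2 hK hC hLone hP ha hη hc1 hc hDX hκ0 hκ hκa
    ?_ Q hQ hσ I hI _ (hR _)
  intro k hk1 hk2
  by_contra hcon
  exact hbad ⟨k, hk1, hk2, not_le.1 hcon⟩

/-- the number of factors -/
theorem k_le {a η c : ℝ} {X d k : ℕ} (h : Par a η c X) (ha : 1 < a) (hd : 3 ≤ d)
    (hX : X ≤ 4 * d) (hdX : d ≤ 2 * X) (hda : (8 : ℝ) ≤ (d : ℝ) ^ (a - 1))
    (hk : (k : ℝ) * (a * la X) ≤ el X) : (k : ℝ) ≤ Real.log d / Real.log (Real.log d) := by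
  have hd0 : (0 : ℝ) < d := by exact_mod_cast (by omega : 0 < d)
  have hd3 : (3 : ℝ) ≤ d := by exact_mod_cast hd
  have hX0 := h.posX
  have hlogd : 1 < Real.log d := by
    rw [Real.lt_log_iff_exp_lt hd0]
    have := Real.exp_one_lt_d9
    linarith
  have hll : 0 < Real.log (Real.log d) := Real.log_pos hlogd
  have h1 : Real.log d ≤ el X := by
    unfold el
    apply Real.log_le_log hd0
    exact_mod_cast hdX
  have h2 : Real.log (Real.log d) ≤ la X := Real.log_le_log (by linarith) h1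
  have h3 : el X ≤ Real.log 8 + Real.log d := by
    unfold el
    rw [← Real.log_mul (by norm_num) hd0.ne']
    apply Real.log_le_log (by positivity)
    have : (X : ℝ) ≤ 4 * d := by exact_mod_cast hX
    linarith
  have h4 : Real.log 8 ≤ (a - 1) * Real.log d := by
    have := Real.log_le_log (by norm_num) hda
    rwa [Real.log_rpow hd0] at this
  rw [le_div_iff₀ hll]
  have hk0 : (0 : ℝ) ≤ k := Nat.cast_nonneg _
  have h5 : (k : ℝ) * (a * Real.log (Real.log d)) ≤ a * Real.log d := by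
    calc (k : ℝ) * (a * Real.log (Real.log d)) ≤ (k : ℝ) * (a * la X) := by gcongr
      _ ≤ el X := hk
      _ ≤ a * Real.log d := by linarith
  have h6 : a * ((k : ℝ) * Real.log (Real.log d)) ≤ a * Real.log d := by linarith
  exact le_of_mul_le_mul_left h6 (by linarith)

theorem pow_trans {X d : ℕ} (hX : 1 ≤ X) (hXd : X ≤ 4 * d) {E E' δ : ℝ} (hE0 : 0 ≤ E) (hE2 : E ≤ 3)
    (h : E + δ ≤ E') (hδ : (64 : ℝ) ≤ (d : ℝ) ^ δ) : (X : ℝ) ^ E ≤ (d : ℝ) ^ E' := by
  have hd : 1 ≤ d := by omega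
  have hdr : (1 : ℝ) ≤ d := by exact_mod_cast hd
  have hd0 : (0 : ℝ) < d := by linarith
  calc (X : ℝ) ^ E ≤ (4 * (d : ℝ)) ^ E := by
        apply Real.rpow_le_rpow (Nat.cast_nonneg _) _ hE0
        exact_mod_cast hXd
    _ = 4 ^ E * (d : ℝ) ^ E := Real.mul_rpow (by norm_num) hd0.le
    _ ≤ (d : ℝ) ^ δ * (d : ℝ) ^ E := by
        apply mul_le_mul_of_nonneg_right _ (by positivity)
        calc (4 : ℝ) ^ E ≤ 4 ^ (3 : ℝ) := Real.rpow_le_rpow_of_exponent_le (by norm_num) hE2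
          _ = 64 := by norm_num
          _ ≤ _ := hδ
    _ = (d : ℝ) ^ (E + δ) := by rw [← Real.rpow_add hd0, add_comm]
    _ ≤ _ := Real.rpow_le_rpow_of_exponent_le hdr h

end Pool.Agent.U880.TC
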