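import Pool.Agent.U880.TC.Off

set_option autoImplicit false

/-! The inequality for a family of products of small primes whose classes lie in one coset. -/

namespace Pool.Agent.U880.TC

open Finset Filter NumberField Pool.Agent.H38R2.CG Pool.Agent.H38R2.CG2 Pool.Agent.H38R2.CG3
open scoped Classical

/-- bound of the kernel -/
theorem KAB_le (hN6 : P_N6) (K : Type) [Field K] [NumberField K] (D : ℕ) (hD : IsFund D)
    (h2 : Module.finrank ℚ K = 2) (hK : NumberField.discr K = (D : ℤ)) (e : Emb K D) (k : ℕ)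
    (s t : Finset ℕ) (hs : ∀ p ∈ s, p.Prime ∧ p ≠ 2) (ht : ∀ p ∈ t, p.Prime ∧ p ≠ 2)
    (hk : (s ∩ t).card ≤ k) (A B : Ideal (𝓞 K)) (hA : Ideal.absNorm A = prodS s)
    (hB : Ideal.absNorm B = prodS t) :
    KAB e A B ≤ (if s = t then 2 ^ k else 0) + 2 ^ ((s ∩ t).card) * Roff D (prodS s * prodS t) := by
  have h := hN6 K D hD h2 hK e s t hs ht {A} {B} (by simpa using hA) (by simpa using hB)
  rw [Finset.sum_singleton, Finset.sum_singleton] at h
  refine h.trans ?_
  have h1 := Rsum_le D (prodS s * prodS t)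
  have h3 : (0 : ℝ) < 2 ^ ((s ∩ t).card) := by positivity
  have h4 : (2 : ℝ) ^ ((s ∩ t).card) ≤ 2 ^ k := pow_le_pow_right₀ (by norm_num) hk
  calc 2 ^ ((s ∩ t).card) * Rsum D (prodS s * prodS t)
      ≤ 2 ^ ((s ∩ t).card) * ((if IsSquare (prodS s * prodS t) then 1 else 0) +
        Roff D (prodS s * prodS t)) := mul_le_mul_of_nonneg_left h1 h3.le
    _ = 2 ^ ((s ∩ t).card) * (if IsSquare (prodS s * prodS t) then 1 else 0) +
        2 ^ ((s ∩ t).card) * Roff D (prodS s * prodS t) := by ring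
    _ ≤ _ := by
        refine add_le_add ?_ le_rfl
        by_cases hsq : IsSquare (prodS s * prodS t)
        · have hst : s = t := ERRh.isSquare_imp_eq (fun p hp => (hs p hp).1) (fun p hp => (ht p hp).1) hsq
          rw [if_pos hsq, if_pos hst, mul_one]
          exact h4
        · rw [if_neg hsq, mul_zero]
          split_ifs
          · positivity
          · exact le_rfl

/-- the inequality for products of small primes: `R` contains the classes of the products -/
theorem ineq (hN0 : P_N0) (hN3 : P_N3) (h4 : P_N4) (hKF : P_KF)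
    (h5b : P_N5b) (hN6 : P_N6) (K : Type) [Field K] [NumberField K] (D : ℕ)
    (hD : IsFund D) (h2 : Module.finrank ℚ K = 2) (hK : NumberField.discr K = (D : ℤ))
    (Q : Finset ℕ) (hQ : ∀ p ∈ Q, p.Prime ∧ p ≠ 2) (I : ℕ → nonZeroDivisors (Ideal (𝓞 K)))
    (hI : ∀ p ∈ Q, Ideal.absNorm (I p : Ideal (𝓞 K)) = p) (k : ℕ)
    (R : Set (ClassGroup (𝓞 K)))
    (hR : ∀ s ∈ Q.powersetCard k, (s.val.map fun p => ClassGroup.mk0 (I p)).prod ∈ R) :
    (Nat.card (ClassGroup (𝓞 K)) : ℝ) * ((Q.card.choose k : ℕ) : ℝ) ^ 2 ≤ (R.ncard : ℝ) *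
      (2 * √(D : ℝ) * Lone D * (2 ^ k * ((Q.card.choose k : ℕ) : ℝ) + OFF D (Q.powersetCard k))) := by
  obtain ⟨e⟩ := hN0 K D hD h2 hK
  have hL0 : 0 ≤ Lone D := (hN3 K D hD h2 hK).1
  set S := Q.powersetCard k with hS
  let ι : Type := {s // s ∈ S}
  let A : ι → nonZeroDivisors (Ideal (𝓞 K)) := fun i => ∏ p ∈ i.1, I p
  have hiQ : ∀ i : ι, i.1 ⊆ Q ∧ i.1.card = k := fun i => Finset.mem_powersetCard.1 i.2
  have hnorm : ∀ i : ι, Ideal.absNorm (A i : Ideal (𝓞 K)) = prodS i.1 := by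
    intro i
    show Ideal.absNorm ((∏ p ∈ i.1, I p : nonZeroDivisors (Ideal (𝓞 K))) : Ideal (𝓞 K)) = _
    rw [Submonoid.coe_finsetProd, map_prod]
    unfold prodS
    exact Finset.prod_congr rfl fun p hp => hI p ((hiQ i).1 hp)
  have hmem : ∀ i : ι, ClassGroup.mk0 (A i) ∈ R := by
    intro i
    have h1 : ClassGroup.mk0 (A i) = (i.1.val.map fun p => ClassGroup.mk0 (I p)).prod :=
      map_prod ClassGroup.mk0 _ _
    rw [h1]
    exact hR i.1 i.2
  have hin := ineq_classes hN3 h4 hKF h5b K D hD h2 hK e ι A (fun _ => 1) (fun _ => zero_le_one)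
  -- the number of the members
  have hN : ∑ _i : ι, (1 : ℝ) = ((Q.card.choose k : ℕ) : ℝ) := by
    rw [Finset.sum_const, nsmul_eq_mul, mul_one, Finset.card_univ, Fintype.card_coe, hS,
      Finset.card_powersetCard]
  -- the classes
  set T : Finset (ClassGroup (𝓞 K)) := Finset.univ.filter (fun C => C ∈ R) with hT
  have hTcard : (T.card : ℝ) = R.ncard := by
    have h1 : (T : Set (ClassGroup (𝓞 K))) = R := by
      ext C
      simp [hT]
    rw [← h1, Set.ncard_coe_finset]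
  set NC : ClassGroup (𝓞 K) → ℝ := fun C =>
    ∑ i ∈ Finset.univ.filter (fun i : ι => ClassGroup.mk0 (A i) = C), (fun _ : ι => (1 : ℝ)) i with hNC
  have hsumT : ∑ _i : ι, (1 : ℝ) = ∑ C ∈ T, NC C := by
    have h1 : ∑ _i : ι, (1 : ℝ) = ∑ C : ClassGroup (𝓞 K), NC C :=
      (Finset.sum_fiberwise Finset.univ (fun i => ClassGroup.mk0 (A i)) (fun _ => (1 : ℝ))).symm
    rw [h1]
    refine (Finset.sum_subset (Finset.subset_univ T) ?_).symm
    intro C _ hC
    rw [hNC]
    refine Finset.sum_eq_zero fun i hi => ?_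
    exfalso
    apply hC
    rw [hT, Finset.mem_filter]
    refine ⟨Finset.mem_univ _, ?_⟩
    rw [← (Finset.mem_filter.1 hi).2]
    exact hmem i
  have hCS : (((Q.card.choose k : ℕ) : ℝ)) ^ 2 ≤ (T.card : ℝ) * ∑ C : ClassGroup (𝓞 K), (NC C) ^ 2 := by
    rw [← hN, hsumT]
    refine (sq_sum_le_card_mul_sum_sq (s := T) (f := NC)).trans ?_
    refine mul_le_mul_of_nonneg_left ?_ (Nat.cast_nonneg _)
    exact Finset.sum_le_sum_of_subset_of_nonneg (Finset.subset_univ _) fun C _ _ => sq_nonneg _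
  -- the kernel
  have hker : ∑ i : ι, ∑ j : ι, (1 : ℝ) * 1 * KAB e (A i : Ideal (𝓞 K)) (A j : Ideal (𝓞 K)) ≤
      2 ^ k * ((Q.card.choose k : ℕ) : ℝ) + OFF D S := by
    have h1 : ∀ i j : ι, (1 : ℝ) * 1 * KAB e (A i : Ideal (𝓞 K)) (A j : Ideal (𝓞 K)) ≤
        (if i.1 = j.1 then 2 ^ k else 0) + 2 ^ ((i.1 ∩ j.1).card) * Roff D (prodS i.1 * prodS j.1) := by
      intro i j
      rw [one_mul, one_mul]
      refine KAB_le hN6 K D hD h2 hK e k i.1 j.1 (fun p hp => hQ p ((hiQ i).1 hp))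
        (fun p hp => hQ p ((hiQ j).1 hp)) ?_ _ _ (hnorm i) (hnorm j)
      rw [← (hiQ i).2]
      exact Finset.card_le_card Finset.inter_subset_left
    calc ∑ i : ι, ∑ j : ι, (1 : ℝ) * 1 * KAB e (A i : Ideal (𝓞 K)) (A j : Ideal (𝓞 K))
        ≤ ∑ i : ι, ∑ j : ι, ((if i.1 = j.1 then 2 ^ k else 0) +
          2 ^ ((i.1 ∩ j.1).card) * Roff D (prodS i.1 * prodS j.1)) :=
          Finset.sum_le_sum fun i _ => Finset.sum_le_sum fun j _ => h1 i j
      _ = ∑ i : ι, ∑ j : ι, (if i.1 = j.1 then (2 : ℝ) ^ k else 0) +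
          ∑ i : ι, ∑ j : ι, 2 ^ ((i.1 ∩ j.1).card) * Roff D (prodS i.1 * prodS j.1) := by
          rw [← Finset.sum_add_distrib]
          exact Finset.sum_congr rfl fun i _ => Finset.sum_add_distrib
      _ = _ := by
          congr 1
          · have h3 : ∀ i : ι, ∑ j : ι, (if i.1 = j.1 then (2 : ℝ) ^ k else 0) = 2 ^ k := by
              intro i
              have h4 : ∀ j : ι, (if i.1 = j.1 then (2 : ℝ) ^ k else 0) =
                  if i = j then 2 ^ k else 0 := by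
                intro j
                have h5 : (i.1 = j.1) ↔ i = j := ⟨fun h => Subtype.ext h, fun h => by rw [h]⟩
                exact if_congr h5 rfl rfl
              rw [Finset.sum_congr rfl fun j _ => h4 j, Finset.sum_ite_eq, if_pos (Finset.mem_univ _)]
            rw [Finset.sum_congr rfl fun i _ => h3 i, ← hN, Finset.mul_sum, Finset.sum_const,
              Finset.sum_const, nsmul_eq_mul, nsmul_eq_mul]
            ring
          · unfold OFF
            rw [← Finset.sum_coe_sort S]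
            refine Finset.sum_congr rfl fun i _ => ?_
            rw [← Finset.sum_coe_sort S]
  have hsq : 0 ≤ 2 * √(D : ℝ) * Lone D := by positivity
  calc (Nat.card (ClassGroup (𝓞 K)) : ℝ) * ((Q.card.choose k : ℕ) : ℝ) ^ 2
      ≤ (Nat.card (ClassGroup (𝓞 K)) : ℝ) * ((T.card : ℝ) * ∑ C : ClassGroup (𝓞 K), (NC C) ^ 2) :=
        mul_le_mul_of_nonneg_left hCS (Nat.cast_nonneg _)
    _ = (T.card : ℝ) * ((Nat.card (ClassGroup (𝓞 K)) : ℝ) * ∑ C : ClassGroup (𝓞 K), (NC C) ^ 2) := by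
        ring
    _ ≤ (T.card : ℝ) * _ := mul_le_mul_of_nonneg_left hin (Nat.cast_nonneg _)
    _ ≤ (T.card : ℝ) * _ :=
        mul_le_mul_of_nonneg_left (mul_le_mul_of_nonneg_left hker hsq) (Nat.cast_nonneg _)
    _ = _ := by rw [hTcard]

end Pool.Agent.U880.TC
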