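import Pool.Agent.R345.IXFin
import Pool.Agent.R345.IYLow

set_option autoImplicit false

/-! The near collisions which are not equalities: definition, vanishing for short products, average
over the discriminants. -/

namespace Pool.Agent.U880.TC

open Finset Pool.Agent.H38R2.CG Pool.Agent.H38R2.CG2
open Pool.Agent.R345.IX (Qz_two)
open scoped Classical

/-- the part of `Rsum` with `v ≠ 0` -/
noncomputable def Roff (D n : ℕ) : ℝ :=
  2 * ∑ v ∈ Finset.Icc 1 (4 * n), ∑ u ∈ Finset.Icc 1 (4 * n), TB1h.T D n u (v : ℤ)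

theorem Roff_nonneg (D n : ℕ) : 0 ≤ Roff D n := by
  unfold Roff
  have : 0 ≤ ∑ v ∈ Finset.Icc 1 (4 * n), ∑ u ∈ Finset.Icc 1 (4 * n), TB1h.T D n u (v : ℤ) :=
    Finset.sum_nonneg fun v _ => Finset.sum_nonneg fun u _ => TB1h.T_nonneg _ _ _ _
  linarith

theorem Rsum_le (D n : ℕ) : Rsum D n ≤ (if IsSquare n then 1 else 0) + Roff D n := by
  rw [TB1h.Rsum_eq]
  exact add_le_add (TB1h.sum_T_zero D n (4 * n)) le_rfl

theorem Roff_zero (X D n : ℕ) (hX : 1 ≤ X) (hn : 1 ≤ n) (hD : X < D) (h : 4 * n < X) :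
    Roff D n = 0 := by
  unfold Roff
  rw [Finset.sum_eq_zero, mul_zero]
  intro v hv
  apply Finset.sum_eq_zero
  intro u _
  apply TB1h.T_large X D n u v hX hn hD
  have hXr : (0 : ℝ) < X := by exact_mod_cast hX
  have h2 : (4 : ℝ) * n < X := by exact_mod_cast h
  have h3 : (1 : ℝ) ≤ v := by exact_mod_cast (Finset.mem_Icc.1 hv).1
  have h4 : √((n : ℝ) / X) < 1 / 2 := by
    rw [Real.sqrt_lt' (by norm_num), div_lt_iff₀ hXr]
    linarith
  linarith

/-- the average over the discriminants for one `n` -/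
theorem sum_Roff (r X n : ℕ) (hr : r < Qz 2) (hX : 1 ≤ X) (hn : 1 ≤ n) :
    ∑ D ∈ DD 2 r X 1, Roff D n ≤ 2 * ∑ v ∈ Finset.Icc 1 ⌊2 * √((n : ℝ) / X)⌋₊,
      (rho 2 r n v : ℝ) * (om X 1 v n / Qz 2 + 1) := by
  unfold Roff
  rw [← Finset.mul_sum, Finset.sum_comm]
  apply mul_le_mul_of_nonneg_left _ (by norm_num)
  set V : ℕ := ⌊2 * √((n : ℝ) / X)⌋₊ with hV
  have h1 : ∑ v ∈ Finset.Icc 1 (4 * n), ∑ D ∈ DD 2 r X 1,
      ∑ u ∈ Finset.Icc 1 (4 * n), TB1h.T D n u (v : ℤ) =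
      ∑ v ∈ (Finset.Icc 1 (4 * n)).filter (fun v => v ≤ V), ∑ D ∈ DD 2 r X 1,
      ∑ u ∈ Finset.Icc 1 (4 * n), TB1h.T D n u (v : ℤ) := by
    rw [Finset.sum_filter]
    apply Finset.sum_congr rfl
    intro v _
    split_ifs with h
    · rfl
    · push Not at h
      have h2 : 2 * √((n : ℝ) / X) < v := by
        rw [hV] at h
        exact Nat.lt_of_floor_lt h
      apply Finset.sum_eq_zero
      intro D hD
      apply Finset.sum_eq_zero
      intro u _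
      have hD' : X < D := by
        unfold DD at hD
        rw [Finset.mem_filter, Finset.mem_Ioc] at hD
        exact hD.1.1
      exact TB1h.T_large X D n u v hX hn hD' h2
  rw [h1]
  have h2 : ∑ v ∈ (Finset.Icc 1 (4 * n)).filter (fun v => v ≤ V), ∑ D ∈ DD 2 r X 1,
      ∑ u ∈ Finset.Icc 1 (4 * n), TB1h.T D n u (v : ℤ) ≤
      ∑ v ∈ Finset.Icc 1 V, ∑ D ∈ DD 2 r X 1,
      ∑ u ∈ Finset.Icc 1 (4 * n), TB1h.T D n u (v : ℤ) := by
    apply Finset.sum_le_sum_of_subset_of_nonneg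
    · intro v hv
      rw [Finset.mem_filter, Finset.mem_Icc] at hv
      exact Finset.mem_Icc.2 ⟨hv.1.1, hv.2⟩
    · intro v _ _
      exact Finset.sum_nonneg fun D _ => Finset.sum_nonneg fun u _ => TB1h.T_nonneg _ _ _ _
  refine h2.trans (Finset.sum_le_sum fun v hv => ?_)
  exact T_TB1a 2 r X n v 1 hr one_pos le_rfl hX hn (Finset.mem_Icc.1 hv).1

/-- the average over the discriminants for one pair of sets of primes -/
theorem avg_off_one (r X k : ℕ) (hr : r < Qz 2) (hX : 1 ≤ X) (s t : Finset ℕ)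
    (hs : ∀ p ∈ s, p.Prime) (ht : ∀ p ∈ t, p.Prime) (hsk : (s ∩ t).card ≤ k)
    (hsX : prodS s ≤ X) (htX : prodS t ≤ X) :
    ∑ D ∈ DD 2 r X 1, Roff D (prodS s * prodS t) ≤
      3072 * 4 ^ k * √(X : ℝ) * (1 + Real.log X) := by
  have hs1 : 1 ≤ prodS s := Finset.prod_pos fun p hp => (hs p hp).pos
  have ht1 : 1 ≤ prodS t := Finset.prod_pos fun p hp => (ht p hp).pos
  set n := prodS s * prodS t with hn
  have hn1 : 1 ≤ n := Nat.mul_pos hs1 ht1
  have hnX : n ≤ X * X := Nat.mul_le_mul hsX htX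
  have hXr : (1 : ℝ) ≤ X := by exact_mod_cast hX
  have hX0 : (0 : ℝ) < X := by linarith
  have hlogX : 0 ≤ Real.log X := Real.log_natCast_nonneg X
  have hnr : (1 : ℝ) ≤ n := by exact_mod_cast hn1
  have hn0 : (0 : ℝ) < n := by linarith
  have hsn : 0 < √(n : ℝ) := Real.sqrt_pos.2 hn0
  have hsX' : 0 < √(X : ℝ) := Real.sqrt_pos.2 hX0
  refine (sum_Roff r X n hr hX hn1).trans ?_
  set V : ℕ := ⌊2 * √((n : ℝ) / X)⌋₊ with hV
  have hQ : ((Qz 2 : ℕ) : ℝ) = 16 := by rw [Qz_two]; norm_num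
  obtain ⟨-, -, hom, -⟩ := T_TB2 X 1 hX one_pos le_rfl n hn0
  have hVle : (V : ℝ) ≤ 2 * √((n : ℝ) / X) := Nat.floor_le (by positivity)
  have hsq : √((n : ℝ) / X) = √(n : ℝ) / √(X : ℝ) := Real.sqrt_div hn0.le _
  have hnX' : √(n : ℝ) ≤ X := by
    rw [Real.sqrt_le_left hX0.le]
    have : ((n : ℕ) : ℝ) ≤ ((X * X : ℕ) : ℝ) := by exact_mod_cast hnX
    push_cast at this
    nlinarith
  have hXX : √(X : ℝ) * √(X : ℝ) = X := Real.mul_self_sqrt hX0.le
  have hV1 : (V : ℝ) ≤ 2 * √(X : ℝ) := by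
    refine hVle.trans ?_
    rw [hsq]
    have : √(n : ℝ) / √(X : ℝ) ≤ √(X : ℝ) := by
      rw [div_le_iff₀ hsX', hXX]
      exact hnX'
    linarith
  have hV2 : (V : ℝ) * (X / (4 * √(n : ℝ))) ≤ √(X : ℝ) / 2 := by
    calc (V : ℝ) * (X / (4 * √(n : ℝ))) ≤ (2 * √((n : ℝ) / X)) * (X / (4 * √(n : ℝ))) := by gcongr
      _ = √(X : ℝ) / 2 := by
        rw [hsq]
        have h : 2 * (√(n : ℝ) / √(X : ℝ)) * ((√(X : ℝ) * √(X : ℝ)) / (4 * √(n : ℝ))) =
            √(X : ℝ) / 2 := by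
          field_simp
          norm_num
        rw [hXX] at h
        exact h
  have hsum : ∑ v ∈ Finset.Icc 1 V, (rho 2 r n v : ℝ) * (om X 1 v n / Qz 2 + 1) ≤
      (∑ v ∈ Finset.Icc 1 V, (rho 2 r n v : ℝ)) * (X / (4 * √(n : ℝ)) / 16 + 1) := by
    rw [Finset.sum_mul]
    refine Finset.sum_le_sum fun v _ => ?_
    refine mul_le_mul_of_nonneg_left ?_ (Nat.cast_nonneg _)
    have := hom v
    rw [hQ]
    rw [one_mul] at this
    have h3 : om X 1 v n / 16 ≤ X / (4 * √(n : ℝ)) / 16 := by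
      exact div_le_div_of_nonneg_right this (by norm_num)
    linarith
  have hvs := ERRh.v_sum T_TB3a 2 r s t hs ht V
  rw [hQ] at hvs
  have h4 : (4 : ℝ) ^ ((s ∩ t).card) ≤ 4 ^ k := pow_le_pow_right₀ (by norm_num) hsk
  have hlogV : Real.log V ≤ 1 + Real.log X := by
    rcases Nat.eq_zero_or_pos V with hV0 | hVpos
    · rw [hV0, Nat.cast_zero, Real.log_zero]
      linarith
    · have hVr : (0 : ℝ) < V := by exact_mod_cast hVpos
      have h5 : Real.log V ≤ Real.log (2 * √(X : ℝ)) := Real.log_le_log hVr hV1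
      rw [Real.log_mul (by norm_num) hsX'.ne', Real.log_sqrt hX0.le] at h5
      have := Real.log_two_lt_d9
      linarith
  have hlogV0 : 0 ≤ Real.log V := Real.log_natCast_nonneg V
  have hc0 : 0 ≤ X / (4 * √(n : ℝ)) / 16 + 1 := by positivity
  calc 2 * ∑ v ∈ Finset.Icc 1 V, (rho 2 r n v : ℝ) * (om X 1 v n / Qz 2 + 1)
      ≤ 2 * ((16 * 16 * (4 ^ k * (V * (2 + Real.log X)))) * (X / (4 * √(n : ℝ)) / 16 + 1)) := by
        refine mul_le_mul_of_nonneg_left (hsum.trans ?_) (by norm_num)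
        refine mul_le_mul_of_nonneg_right (hvs.trans ?_) hc0
        have h6 : (V : ℝ) * (1 + Real.log V) ≤ V * (2 + Real.log X) := by
          apply mul_le_mul_of_nonneg_left _ (Nat.cast_nonneg _)
          linarith
        have h7 : (0 : ℝ) ≤ V * (1 + Real.log V) := by positivity
        gcongr
    _ = 512 * 4 ^ k * (2 + Real.log X) * (V * (X / (4 * √(n : ℝ))) / 16 + V) := by ring
    _ ≤ 512 * 4 ^ k * (2 + Real.log X) * (√(X : ℝ) / 2 / 16 + 2 * √(X : ℝ)) := by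
        gcongr
    _ ≤ 3072 * 4 ^ k * √(X : ℝ) * (1 + Real.log X) := by
        have h8 : (0 : ℝ) < 4 ^ k := by positivity
        have h9 : 0 ≤ 4 ^ k * √(X : ℝ) := by positivity
        have h10 : 512 * 4 ^ k * (2 + Real.log X) * (√(X : ℝ) / 2 / 16 + 2 * √(X : ℝ)) =
            (4 ^ k * √(X : ℝ)) * ((2 + Real.log X) * (512 * (65 / 32))) := by ring
        have h11 : 3072 * 4 ^ k * √(X : ℝ) * (1 + Real.log X) =
            (4 ^ k * √(X : ℝ)) * ((1 + Real.log X) * 3072) := by ring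
        rw [h10, h11]
        apply mul_le_mul_of_nonneg_left _ h9
        nlinarith

/-- the number of near collisions which are not equalities, over pairs of sets of primes in `S` -/
noncomputable def OFF (D : ℕ) (S : Finset (Finset ℕ)) : ℝ :=
  ∑ s ∈ S, ∑ t ∈ S, 2 ^ ((s ∩ t).card) * Roff D (prodS s * prodS t)

theorem OFF_nonneg (D : ℕ) (S : Finset (Finset ℕ)) : 0 ≤ OFF D S :=
  Finset.sum_nonneg fun s _ => Finset.sum_nonneg fun t _ => mul_nonneg (by positivity) (Roff_nonneg _ _)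

theorem OFF_mono (D : ℕ) {S S' : Finset (Finset ℕ)} (h : S ⊆ S') : OFF D S ≤ OFF D S' := by
  unfold OFF
  have h0 : ∀ s t : Finset ℕ, (0 : ℝ) ≤ 2 ^ ((s ∩ t).card) * Roff D (prodS s * prodS t) := fun s t =>
    mul_nonneg (by positivity) (Roff_nonneg _ _)
  refine le_trans (Finset.sum_le_sum fun s _ => Finset.sum_le_sum_of_subset_of_nonneg h fun t _ _ => h0 s t) ?_
  exact Finset.sum_le_sum_of_subset_of_nonneg h fun s _ _ => Finset.sum_nonneg fun t _ => h0 s t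

theorem OFF_zero (X D Y : ℕ) (hX : 1 ≤ X) (hD : X < D) (S : Finset (Finset ℕ))
    (hY : 4 * (Y * Y) < X) (hS : ∀ s ∈ S, (∀ p ∈ s, p.Prime) ∧ prodS s ≤ Y) : OFF D S = 0 := by
  unfold OFF
  refine Finset.sum_eq_zero fun s hs => Finset.sum_eq_zero fun t ht => ?_
  have hps : 1 ≤ prodS s := Finset.prod_pos fun p hp => ((hS s hs).1 p hp).pos
  have hpt : 1 ≤ prodS t := Finset.prod_pos fun p hp => ((hS t ht).1 p hp).pos
  have hn : 4 * (prodS s * prodS t) < X := lt_of_le_of_lt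
    (Nat.mul_le_mul_left 4 (Nat.mul_le_mul (hS s hs).2 (hS t ht).2)) hY
  rw [Roff_zero X D _ hX (Nat.mul_pos hps hpt) hD hn, mul_zero]

theorem avg_OFF (r X k : ℕ) (hr : r < Qz 2) (hX : 1 ≤ X) (S : Finset (Finset ℕ))
    (hS : ∀ s ∈ S, (∀ p ∈ s, p.Prime) ∧ s.card = k ∧ prodS s ≤ X) :
    ∑ D ∈ DD 2 r X 1, OFF D S ≤
      3072 * 8 ^ k * √(X : ℝ) * (1 + Real.log X) * (S.card : ℝ) ^ 2 := by
  have hlogX : 0 ≤ Real.log X := Real.log_natCast_nonneg X
  have e1 : ∑ D ∈ DD 2 r X 1, OFF D S =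
      ∑ s ∈ S, ∑ t ∈ S, 2 ^ ((s ∩ t).card) * ∑ D ∈ DD 2 r X 1, Roff D (prodS s * prodS t) := by
    unfold OFF
    rw [Finset.sum_comm]
    refine Finset.sum_congr rfl fun s _ => ?_
    rw [Finset.sum_comm]
    refine Finset.sum_congr rfl fun t _ => ?_
    rw [Finset.mul_sum]
  rw [e1]
  have h2 : ∀ s ∈ S, ∀ t ∈ S, 2 ^ ((s ∩ t).card) * ∑ D ∈ DD 2 r X 1, Roff D (prodS s * prodS t) ≤
      3072 * 8 ^ k * √(X : ℝ) * (1 + Real.log X) := by
    intro s hs t ht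
    have hk : (s ∩ t).card ≤ k := by
      rw [← (hS s hs).2.1]
      exact Finset.card_le_card Finset.inter_subset_left
    have h3 := avg_off_one r X k hr hX s t (hS s hs).1 (hS t ht).1 hk (hS s hs).2.2 (hS t ht).2.2
    have h4 : (2 : ℝ) ^ ((s ∩ t).card) ≤ 2 ^ k := pow_le_pow_right₀ (by norm_num) hk
    have h5 : 0 ≤ 3072 * 4 ^ k * √(X : ℝ) * (1 + Real.log X) := by positivity
    have h248 : (2 : ℝ) ^ k * 4 ^ k = 8 ^ k := by rw [← mul_pow]; norm_num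
    calc 2 ^ ((s ∩ t).card) * ∑ D ∈ DD 2 r X 1, Roff D (prodS s * prodS t)
        ≤ 2 ^ ((s ∩ t).card) * (3072 * 4 ^ k * √(X : ℝ) * (1 + Real.log X)) :=
          mul_le_mul_of_nonneg_left h3 (by positivity)
      _ ≤ 2 ^ k * (3072 * 4 ^ k * √(X : ℝ) * (1 + Real.log X)) := mul_le_mul_of_nonneg_right h4 h5
      _ = _ := by rw [← h248]; ring
  calc ∑ s ∈ S, ∑ t ∈ S, 2 ^ ((s ∩ t).card) * ∑ D ∈ DD 2 r X 1, Roff D (prodS s * prodS t)
      ≤ ∑ s ∈ S, ∑ t ∈ S, 3072 * 8 ^ k * √(X : ℝ) * (1 + Real.log X) :=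
        Finset.sum_le_sum fun s hs => Finset.sum_le_sum fun t ht => h2 s hs t ht
    _ = _ := by
        rw [Finset.sum_const, Finset.sum_const, nsmul_eq_mul, nsmul_eq_mul]
        ring

/-- number of the discriminants with many near collisions -/
theorem off_card (r X k : ℕ) (hr : r < Qz 2) (hX : 1 ≤ X) (S : Finset (Finset ℕ))
    (hS : ∀ s ∈ S, (∀ p ∈ s, p.Prime) ∧ s.card = k ∧ prodS s ≤ X) (T : ℝ) (hT : 0 < T)
    (hc : 0 < S.card) :
    (((DD 2 r X 1).filter (fun D => T * ((S.card : ℝ) ^ 2 / √(X : ℝ)) < OFF D S)).card : ℝ) ≤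
      3072 * 8 ^ k * (1 + Real.log X) * X / T := by
  have hXr : (1 : ℝ) ≤ X := by exact_mod_cast hX
  have hX0 : (0 : ℝ) < X := by linarith
  have hsX : 0 < √(X : ℝ) := Real.sqrt_pos.2 hX0
  have hXX : √(X : ℝ) * √(X : ℝ) = X := Real.mul_self_sqrt hX0.le
  have hM : (0 : ℝ) < S.card := by exact_mod_cast hc
  set M : ℝ := (S.card : ℝ) with hMdef
  set A : ℝ := M ^ 2 / √(X : ℝ) with hA
  have hA0 : 0 < A := by positivity
  set Bd := (DD 2 r X 1).filter (fun D => T * A < OFF D S) with hBd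
  have h1 := avg_OFF r X k hr hX S hS
  have h2 : (Bd.card : ℝ) * (T * A) ≤ ∑ D ∈ DD 2 r X 1, OFF D S := by
    calc (Bd.card : ℝ) * (T * A) = ∑ D ∈ Bd, (T * A) := by rw [Finset.sum_const, nsmul_eq_mul]
      _ ≤ ∑ D ∈ Bd, OFF D S :=
          Finset.sum_le_sum fun D hD => (Finset.mem_filter.1 hD).2.le
      _ ≤ _ := Finset.sum_le_sum_of_subset_of_nonneg (Finset.filter_subset _ _)
          fun D _ _ => OFF_nonneg D S
  have h3 : 3072 * 8 ^ k * √(X : ℝ) * (1 + Real.log X) * M ^ 2 =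
      (3072 * 8 ^ k * (1 + Real.log X) * X) * A := by
    rw [hA]
    have : (X : ℝ) * (M ^ 2 / √(X : ℝ)) = √(X : ℝ) * M ^ 2 := by
      have h4 : (X : ℝ) * (M ^ 2 / √(X : ℝ)) = (√(X : ℝ) * √(X : ℝ)) * (M ^ 2 / √(X : ℝ)) := by rw [hXX]
      rw [h4]
      field_simp
    calc 3072 * 8 ^ k * √(X : ℝ) * (1 + Real.log X) * M ^ 2
        = 3072 * 8 ^ k * (1 + Real.log X) * (√(X : ℝ) * M ^ 2) := by ring
      _ = 3072 * 8 ^ k * (1 + Real.log X) * ((X : ℝ) * (M ^ 2 / √(X : ℝ))) := by rw [this]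
      _ = _ := by ring
  rw [← hMdef, h3] at h1
  rw [le_div_iff₀ hT]
  have h4 : ((Bd.card : ℝ) * T) * A ≤ (3072 * 8 ^ k * (1 + Real.log X) * X) * A := by
    calc ((Bd.card : ℝ) * T) * A = (Bd.card : ℝ) * (T * A) := by ring
      _ ≤ _ := h2.trans h1
  exact le_of_mul_le_mul_right h4 hA0

end Pool.Agent.U880.TC
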